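import Pool.Agent.Helper82.NR.Tail
import Pool.Agent.Helper84.EA.Mert

/-!
# NR: the prime side in the thick form (blocks B3, B4, B4')
-/

set_option autoImplicit false
open MeasureTheory Set Filter Topology
open Pool.Agent.Helper57.TX
open Pool.Agent.Helper54.LG (SS)

namespace Pool.Agent.Helper82.NR

/-- The derivative of `SS`. -/
noncomputable def SSd (X t : ℝ) : ℝ :=
  -∑ n ∈ Finset.range (⌊Real.exp X⌋₊ + 1),
    2 / X * (ArithmeticFunction.vonMangoldt n / √n * (1 - Real.log n / X) ^ 2 * Real.log n) * Real.sin (Real.log n * t)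

lemma SS_deriv (X t : ℝ) : HasDerivAt (SS X) (SSd X t) t := by
  unfold SSd SS
  have h1 : ∀ n ∈ Finset.range (⌊Real.exp X⌋₊ + 1), HasDerivAt
      (fun t : ℝ => ArithmeticFunction.vonMangoldt n / Real.sqrt n * (1 - Real.log n / X) ^ 2 * Real.cos (t * Real.log n))
      (ArithmeticFunction.vonMangoldt n / Real.sqrt n * (1 - Real.log n / X) ^ 2 *
        (-Real.sin (t * Real.log n) * (1 * Real.log n))) t := by
    intro n _
    exact (((hasDerivAt_id t).mul_const (Real.log n)).cos).const_mul _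
  have h2 := (HasDerivAt.fun_sum h1).const_mul (2 / X)
  refine h2.congr_deriv ?_
  rw [Finset.mul_sum, ← Finset.sum_neg_distrib]
  refine Finset.sum_congr rfl fun n _ => ?_
  rw [mul_comm t]
  ring

lemma SSd_cont (X : ℝ) : Continuous (SSd X) := by
  unfold SSd
  exact (continuous_finsetSum _ fun n _ => by fun_prop).neg

lemma SS_sub_le {X t t' s : ℝ} (hs : |t - t'| ≤ s) : |SS X t - SS X t'| ≤ ∫ u in (t' - s)..(t' + s), |SSd X u| := by
  have h1 : ∫ u in t'..t, SSd X u = SS X t - SS X t' :=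
    intervalIntegral.integral_eq_sub_of_hasDerivAt (fun u _ => SS_deriv X u) ((SSd_cont X).intervalIntegrable _ _)
  rw [← h1]
  have h3 := intervalIntegral.norm_integral_le_abs_integral_norm (μ := volume) (f := SSd X) (a := t') (b := t)
  simp only [Real.norm_eq_abs] at h3
  refine h3.trans ?_
  have hi : ∀ a b : ℝ, IntervalIntegrable (fun u => |SSd X u|) volume a b :=
    fun a b => (SSd_cont X).abs.intervalIntegrable a b
  rw [abs_le] at hs
  rcases le_total t' t with h | h
  · rw [abs_of_nonneg (intervalIntegral.integral_nonneg h fun u _ => abs_nonneg _)]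
    exact intervalIntegral.integral_mono_interval (by linarith) h (by linarith)
      (Eventually.of_forall fun u => abs_nonneg _) (hi _ _)
  · rw [intervalIntegral.integral_symm, abs_neg, abs_of_nonneg (intervalIntegral.integral_nonneg h fun u _ => abs_nonneg _)]
    exact intervalIntegral.integral_mono_interval (by linarith) h (by linarith)
      (Eventually.of_forall fun u => abs_nonneg _) (hi _ _)

/-- mean square of the derivative -/
theorem SSd_mean : ∃ C T₀ : ℝ, 0 < C ∧ ∀ T X : ℝ, T₀ ≤ T → 1 / 2 ≤ X → Real.exp X ≤ T ^ (1 / 4 : ℝ) →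
    ∫ t in (T / 4)..(4 * T), SSd X t ^ 2 ≤ C * X ^ 2 * T := by
  have ev1 : ∀ᶠ T : ℝ in atTop, 80 ≤ T ^ (1 / 2 : ℝ) := (tendsto_rpow_atTop (by norm_num)).eventually_ge_atTop _
  obtain ⟨T0, hT0⟩ := eventually_atTop.mp (ev1.and (eventually_ge_atTop 1))
  have hl4 : 0 ≤ Real.log 4 + 4 := by
    have := Real.log_nonneg (by norm_num : (1:ℝ) ≤ 4)
    linarith
  refine ⟨16 * (1 + 2 * (Real.log 4 + 4)), T0, by positivity, fun T X hT hX hXT => ?_⟩
  obtain ⟨f1, f2⟩ := hT0 T hT
  have hX0 : 0 < X := by linarith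
  have hTp : 0 < T := by linarith
  set N := ⌊Real.exp X⌋₊ with hN
  have hN1 : 1 ≤ N := by
    rw [hN, Nat.one_le_floor_iff]
    exact Real.one_le_exp hX0.le
  have hNL : (N : ℝ) ≤ Real.exp X := Nat.floor_le (Real.exp_pos X).le
  have hNX : Real.log N ≤ X := by
    rw [Real.log_le_iff_le_exp (by exact_mod_cast hN1)]
    exact hNL
  set c : ℕ → ℝ := fun n => 2 / X * (ArithmeticFunction.vonMangoldt n / √n * (1 - Real.log n / X) ^ 2 * Real.log n)
    with hc
  have hc0 : c 0 = 0 := by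
    rw [hc]
    simp
  have hmv := Pool.Agent.Helper78.SG.mv_cplx hN1 c hc0 (show T / 4 ≤ 4 * T by linarith)
  have hS : ∑ n ∈ Finset.range (N + 1), c n ^ 2 ≤ 4 * (1 + 2 * (Real.log 4 + 4)) * X ^ 2 := by
    have h1 : ∑ n ∈ Finset.range (N + 1), c n ^ 2 ≤
        ∑ n ∈ Finset.range (N + 1), 4 * X * (ArithmeticFunction.vonMangoldt n / n) := by
      refine Finset.sum_le_sum fun n hn => ?_
      rcases Nat.eq_zero_or_pos n with h0 | h0
      · subst h0
        rw [hc0]
        simp
      · have hn0 : (0:ℝ) < n := by exact_mod_cast h0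
        have g1 : 0 ≤ Real.log n := Real.log_nonneg (by exact_mod_cast h0)
        have g2 : Real.log n ≤ X := by
          refine le_trans ?_ hNX
          exact Real.log_le_log hn0 (by exact_mod_cast Nat.lt_succ_iff.1 (Finset.mem_range.1 hn))
        have g3 : Real.log n / X ≤ 1 := (div_le_one hX0).2 g2
        have g4 : 0 ≤ Real.log n / X := by positivity
        have g5 : (1 - Real.log n / X) ^ 2 ≤ 1 := by nlinarith
        have g6 : ((1 - Real.log n / X) ^ 2) ^ 2 ≤ 1 := pow_le_one₀ (sq_nonneg _) g5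
        have g7 : 0 ≤ ArithmeticFunction.vonMangoldt n := ArithmeticFunction.vonMangoldt_nonneg
        have g8 : ArithmeticFunction.vonMangoldt n ≤ X := ArithmeticFunction.vonMangoldt_le_log.trans g2
        have g9 : Real.log n ^ 2 ≤ X ^ 2 := pow_le_pow_left₀ g1 g2 2
        have g10 : (√(n:ℝ)) ^ 2 = n := Real.sq_sqrt hn0.le
        calc c n ^ 2 = 4 / X ^ 2 * (ArithmeticFunction.vonMangoldt n * ArithmeticFunction.vonMangoldt n / (√(n:ℝ)) ^ 2) *
              ((1 - Real.log n / X) ^ 2) ^ 2 * Real.log n ^ 2 := by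
              rw [hc]
              ring
          _ ≤ 4 / X ^ 2 * (ArithmeticFunction.vonMangoldt n * X / n) * 1 * X ^ 2 := by
              rw [g10]
              gcongr
          _ = 4 * X * (ArithmeticFunction.vonMangoldt n / n) := by
              field_simp
    refine h1.trans ?_
    rw [← Finset.mul_sum]
    have h2 : ∑ n ∈ Finset.range (N + 1), ArithmeticFunction.vonMangoldt n / (n : ℝ) ≤ X + (Real.log 4 + 4) :=
      (Pool.Agent.Helper84.EA.vM_upper hN1).trans (by linarith)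
    have h3 : X + (Real.log 4 + 4) ≤ (1 + 2 * (Real.log 4 + 4)) * X := by nlinarith
    calc 4 * X * ∑ n ∈ Finset.range (N + 1), ArithmeticFunction.vonMangoldt n / (n : ℝ) ≤
        4 * X * ((1 + 2 * (Real.log 4 + 4)) * X) := mul_le_mul_of_nonneg_left (h2.trans h3) (by positivity)
      _ = _ := by ring
  have hS0 : 0 ≤ ∑ n ∈ Finset.range (N + 1), c n ^ 2 := Finset.sum_nonneg fun n _ => sq_nonneg _
  have hN4 : (N : ℝ) ≤ T ^ (1 / 4 : ℝ) := hNL.trans hXT
  have hlogN : 1 + Real.log N ≤ N := by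
    have h1 : (0:ℝ) < N := by exact_mod_cast hN1
    linarith [Real.log_le_sub_one_of_pos h1]
  have hlen : 4 * T - T / 4 + 20 * N * (1 + Real.log N) ≤ 4 * T := by
    have hN0 : (0:ℝ) ≤ N := Nat.cast_nonneg _
    have h1 : 20 * N * (1 + Real.log N) ≤ 20 * (T ^ (1 / 4 : ℝ) * T ^ (1 / 4 : ℝ)) := by
      calc 20 * N * (1 + Real.log N) ≤ 20 * N * N := by gcongr
        _ = 20 * (N * N) := by ring
        _ ≤ _ := by gcongr
    have h2 : T ^ (1 / 4 : ℝ) * T ^ (1 / 4 : ℝ) = T ^ (1 / 2 : ℝ) := by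
      rw [← Real.rpow_add hTp]
      norm_num
    have h3 : T ^ (1 / 2 : ℝ) * T ^ (1 / 2 : ℝ) = T := by
      rw [← Real.rpow_add hTp]
      norm_num
    rw [h2] at h1
    have h4 : 80 * T ^ (1 / 2 : ℝ) ≤ T := by
      calc 80 * T ^ (1 / 2 : ℝ) ≤ T ^ (1 / 2 : ℝ) * T ^ (1 / 2 : ℝ) := by gcongr
        _ = T := h3
    have h5 : 0 ≤ T ^ (1 / 2 : ℝ) := by positivity
    linarith
  have hcc : Continuous fun t => ∑ n ∈ Finset.range (N + 1), c n * Real.cos (Real.log n * t) :=
    continuous_finsetSum _ fun n _ => by fun_prop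
  have hcs : Continuous fun t => ∑ n ∈ Finset.range (N + 1), c n * Real.sin (Real.log n * t) :=
    continuous_finsetSum _ fun n _ => by fun_prop
  have hd : ∀ t, SSd X t = -∑ n ∈ Finset.range (N + 1), c n * Real.sin (Real.log n * t) := fun t => rfl
  have hle : ∫ t in (T / 4)..(4 * T), SSd X t ^ 2 ≤
      ∫ t in (T / 4)..(4 * T), ((∑ n ∈ Finset.range (N + 1), c n * Real.cos (Real.log n * t)) ^ 2 +
        (∑ n ∈ Finset.range (N + 1), c n * Real.sin (Real.log n * t)) ^ 2) := by
    refine intervalIntegral.integral_mono_on (by linarith) ?_ ?_ fun t _ => ?_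
    · exact ((SSd_cont X).pow 2).intervalIntegrable _ _
    · exact ((hcc.pow 2).add (hcs.pow 2)).intervalIntegrable _ _
    · rw [hd, neg_sq]
      exact le_add_of_nonneg_left (sq_nonneg _)
  calc _ ≤ _ := hle
    _ ≤ (4 * T - T / 4 + 20 * N * (1 + Real.log N)) * ∑ n ∈ Finset.range (N + 1), c n ^ 2 := hmv
    _ ≤ 4 * T * (4 * (1 + 2 * (Real.log 4 + 4)) * X ^ 2) := mul_le_mul hlen hS hS0 (by positivity)
    _ = _ := by ring

/-- first moment of the derivative -/
theorem SSd_mean1 : ∃ C T₀ : ℝ, 0 < C ∧ ∀ T X : ℝ, T₀ ≤ T → 1 / 2 ≤ X → Real.exp X ≤ T ^ (1 / 4 : ℝ) →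
    ∫ t in (T / 4)..(4 * T), |SSd X t| ≤ C * X * T := by
  obtain ⟨C, T0, hC, h⟩ := SSd_mean
  refine ⟨C + 4, max T0 1, by positivity, fun T X hT hX hXT => ?_⟩
  have hT1 : 1 ≤ T := (le_max_right _ _).trans hT
  have hX0 : 0 < X := by linarith
  have h1 := h T X ((le_max_left _ _).trans hT) hX hXT
  have hi1 : IntervalIntegrable (fun t => |SSd X t|) volume (T / 4) (4 * T) := (SSd_cont X).abs.intervalIntegrable _ _
  have hi2 : IntervalIntegrable (fun t => SSd X t ^ 2 / X + X) volume (T / 4) (4 * T) := by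
    apply Continuous.intervalIntegrable
    have := SSd_cont X
    fun_prop
  have h2 : ∫ t in (T / 4)..(4 * T), |SSd X t| ≤ ∫ t in (T / 4)..(4 * T), (SSd X t ^ 2 / X + X) := by
    refine intervalIntegral.integral_mono_on (by linarith) hi1 hi2 fun t _ => ?_
    rw [← sq_abs (SSd X t), ← sub_nonneg]
    have h3 : |SSd X t| ^ 2 / X + X - |SSd X t| = ((|SSd X t| - X / 2) ^ 2 + 3 / 4 * X ^ 2) / X := by
      field_simp
      ring
    rw [h3]
    positivity
  refine h2.trans ?_
  have hi3 : IntervalIntegrable (fun t => SSd X t ^ 2 / X) volume (T / 4) (4 * T) := by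
    apply Continuous.intervalIntegrable
    have := SSd_cont X
    fun_prop
  rw [intervalIntegral.integral_add hi3 (by simp), intervalIntegral.integral_div, intervalIntegral.integral_const, smul_eq_mul]
  have h4 : (∫ t in (T / 4)..(4 * T), SSd X t ^ 2) / X ≤ C * X * T := by
    rw [div_le_iff₀ hX0]
    refine h1.trans (le_of_eq ?_)
    ring
  nlinarith

/-- Markov for an average over a short interval -/
theorem thick_markov {g : ℝ → ℝ} (hg : Continuous g) (hg0 : ∀ t, 0 ≤ g t) {T s v : ℝ} (hs : 0 ≤ s) (hsT : s ≤ T / 4)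
    (hv : 0 < v) : volume {t : ℝ | t ∈ Icc (T / 2) (3 * T) ∧ v ≤ ∫ u in (t - s)..(t + s), g u} ≤
      ENNReal.ofReal (2 * s * (∫ u in (T / 4)..(4 * T), g u) / v) := by
  have hT0 : 0 ≤ T := by linarith
  obtain ⟨P, hP⟩ : ∃ P : ℝ → ℝ, P = fun x => ∫ u in (0:ℝ)..x, g u := ⟨_, rfl⟩
  have hi : ∀ a b : ℝ, IntervalIntegrable g volume a b := fun a b => hg.intervalIntegrable a b
  have hPd : ∀ a b : ℝ, ∫ u in a..b, g u = P b - P a := by
    intro a b
    rw [hP]
    dsimp only
    rw [intervalIntegral.integral_interval_sub_left (hi _ _) (hi _ _)]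
  have hPc : Continuous P := by
    rw [hP]
    exact intervalIntegral.continuous_primitive (fun a b => hi a b) 0
  have hPm : Monotone P := by
    intro a b hab
    have h1 := hPd a b
    have h2 : 0 ≤ ∫ u in a..b, g u := intervalIntegral.integral_nonneg hab fun u _ => hg0 u
    linarith
  have hc : Continuous fun t => P (t + s) - P (t - s) := by fun_prop
  have hG0 : ∀ t, 0 ≤ P (t + s) - P (t - s) := fun t => sub_nonneg.2 (hPm (by linarith))
  have hint : ∫ t in (T / 2)..(3 * T), (P (t + s) - P (t - s)) ≤ 2 * s * (∫ u in (T / 4)..(4 * T), g u) := by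
    have hiP : ∀ a b : ℝ, IntervalIntegrable P volume a b := fun a b => hPc.intervalIntegrable a b
    have ia : IntervalIntegrable (fun t => P (t + s)) volume (T / 2) (3 * T) := by
      apply Continuous.intervalIntegrable
      fun_prop
    have ib : IntervalIntegrable (fun t => P (t - s)) volume (T / 2) (3 * T) := by
      apply Continuous.intervalIntegrable
      fun_prop
    rw [intervalIntegral.integral_sub ia ib]
    rw [intervalIntegral.integral_comp_add_right (fun x => P x), intervalIntegral.integral_comp_sub_right (fun x => P x)]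
    have e1 : ∫ x in (T / 2 + s)..(3 * T + s), P x = (∫ x in (T / 2 + s)..(3 * T - s), P x) + ∫ x in (3 * T - s)..(3 * T + s), P x :=
      (intervalIntegral.integral_add_adjacent_intervals (hiP _ _) (hiP _ _)).symm
    have e2 : ∫ x in (T / 2 - s)..(3 * T - s), P x = (∫ x in (T / 2 - s)..(T / 2 + s), P x) + ∫ x in (T / 2 + s)..(3 * T - s), P x :=
      (intervalIntegral.integral_add_adjacent_intervals (hiP _ _) (hiP _ _)).symm
    rw [e1, e2]
    have e3 : ∫ x in (3 * T - s)..(3 * T + s), P x ≤ 2 * s * P (3 * T + s) := by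
      have := intervalIntegral.integral_mono_on (a := 3 * T - s) (b := 3 * T + s) (μ := volume) (f := P)
        (g := fun _ => P (3 * T + s)) (by linarith) (hiP _ _) (by simp) (fun x hx => hPm hx.2)
      rw [intervalIntegral.integral_const, smul_eq_mul] at this
      linarith
    have e4 : 2 * s * P (T / 2 - s) ≤ ∫ x in (T / 2 - s)..(T / 2 + s), P x := by
      have := intervalIntegral.integral_mono_on (a := T / 2 - s) (b := T / 2 + s) (μ := volume) (g := P)
        (f := fun _ => P (T / 2 - s)) (by linarith) (by simp) (hiP _ _) (fun x hx => hPm hx.1)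
      rw [intervalIntegral.integral_const, smul_eq_mul] at this
      linarith
    have e5 : P (3 * T + s) - P (T / 2 - s) ≤ P (4 * T) - P (T / 4) := by
      have h1 := hPm (show 3 * T + s ≤ 4 * T by linarith)
      have h2 := hPm (show T / 4 ≤ T / 2 - s by linarith)
      linarith
    rw [hPd]
    have e6 : 2 * s * (P (3 * T + s) - P (T / 2 - s)) ≤ 2 * s * (P (4 * T) - P (T / 4)) :=
      mul_le_mul_of_nonneg_left e5 (by linarith)
    linarith
  have hiO : IntegrableOn (fun t => P (t + s) - P (t - s)) (Icc (T / 2) (3 * T)) := hc.continuousOn.integrableOn_Icc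
  have h2 := mul_meas_ge_le_integral_of_nonneg (μ := volume.restrict (Icc (T / 2) (3 * T)))
    (Eventually.of_forall hG0) hiO v
  have hJ : ∫ t in Icc (T / 2) (3 * T), (P (t + s) - P (t - s)) = ∫ t in (T / 2)..(3 * T), (P (t + s) - P (t - s)) := by
    rw [intervalIntegral.integral_of_le (by linarith), integral_Icc_eq_integral_Ioc]
  rw [hJ] at h2
  have hms : MeasurableSet {t | v ≤ P (t + s) - P (t - s)} := measurableSet_le measurable_const hc.measurable
  have hfin : (volume.restrict (Icc (T / 2) (3 * T))) {t | v ≤ P (t + s) - P (t - s)} ≠ ⊤ := measure_ne_top _ _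
  have h3 : (volume.restrict (Icc (T / 2) (3 * T))).real {t | v ≤ P (t + s) - P (t - s)} ≤
      2 * s * (∫ u in (T / 4)..(4 * T), g u) / v := by
    rw [le_div_iff₀' hv]
    exact h2.trans hint
  calc volume {t : ℝ | t ∈ Icc (T / 2) (3 * T) ∧ v ≤ ∫ u in (t - s)..(t + s), g u} =
      volume (Icc (T / 2) (3 * T) ∩ {t | v ≤ P (t + s) - P (t - s)}) := by
        congr 1
        ext t
        rw [mem_inter_iff]
        show (t ∈ Icc (T / 2) (3 * T) ∧ v ≤ ∫ u in (t - s)..(t + s), g u) ↔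
          (t ∈ Icc (T / 2) (3 * T) ∧ v ≤ P (t + s) - P (t - s))
        rw [hPd]
    _ = (volume.restrict (Icc (T / 2) (3 * T))) {t | v ≤ P (t + s) - P (t - s)} := by
        rw [Measure.restrict_apply hms, inter_comm]
    _ = ENNReal.ofReal ((volume.restrict (Icc (T / 2) (3 * T))).real {t | v ≤ P (t + s) - P (t - s)}) := by
        rw [Measure.real, ENNReal.ofReal_toReal hfin]
    _ ≤ _ := ENNReal.ofReal_le_ofReal h3

/-- The prime side, thick form. -/
theorem ss_thick : ∃ C c T₀ : ℝ, 0 < C ∧ 0 < c ∧ ∀ (T e : ℝ) (a J : ℕ), T₀ ≤ T → 1 ≤ J → (J : ℝ) ≤ 2 ^ a →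
    2 ≤ a → 1 / 2 ≤ Real.log T / 2 ^ (a + J) → 0 < e → e ≤ 1 → ∃ B : Set ℝ,
    volume B ≤ ENNReal.ofReal ((C * Real.exp (-(c * e ^ 2 * J)) + C / (2 ^ a * e) +
      C * (2 ^ (a + J) / (Real.log T * e)) ^ 2) * T) ∧
    ∀ t' ∈ Icc (T / 2) (3 * T), t' ∉ B → ∀ t : ℝ, |t - t'| ≤ 2 * Real.pi / Real.log T →
      |∑ j ∈ Finset.range J, SS (Real.log T / 2 ^ (a + j)) t| ≤ e * J := by
  obtain ⟨C, c, T0, hC, hc, h⟩ := ss_scales
  obtain ⟨C', T0', hC', h'⟩ := SSd_mean1
  obtain ⟨T1, hT1⟩ := eventually_atTop.mp (Real.tendsto_log_atTop.eventually_ge_atTop (2 * Real.pi))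
  refine ⟨4 * C + 8 * (2 * Real.pi * C'), c / 4, max (max T0 T0') (max T1 4), by positivity, by positivity,
    fun T e a J hT hJ hJa ha hX he he1 => ?_⟩
  have hTa : T0 ≤ T := (le_max_left _ _).trans ((le_max_left _ _).trans hT)
  have hTb : T0' ≤ T := (le_max_right _ _).trans ((le_max_left _ _).trans hT)
  have hTc : 2 * Real.pi ≤ Real.log T := hT1 T ((le_max_left _ _).trans ((le_max_right _ _).trans hT))
  have hTd : 4 ≤ T := (le_max_right _ _).trans ((le_max_right _ _).trans hT)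
  have hTp : 0 < T := by linarith
  have hpi := Real.pi_pos
  have hlog : 0 < Real.log T := by linarith
  have hJ0 : (0:ℝ) < J := by exact_mod_cast hJ
  obtain ⟨s, hs⟩ : ∃ s : ℝ, s = 2 * Real.pi / Real.log T := ⟨_, rfl⟩
  have hs0 : 0 < s := by rw [hs]; positivity
  have hs1 : s ≤ 1 := by rw [hs, div_le_one hlog]; exact hTc
  have hXp : ∀ j, 0 < Xs T a j := by
    intro j
    unfold Xs
    positivity
  have hX2 : ∀ j, j < J → 1 / 2 ≤ Xs T a j := by
    intro j hj
    refine hX.trans ?_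
    unfold Xs
    exact div_le_div_of_nonneg_left hlog.le (by positivity) (pow_le_pow_right₀ (by norm_num) (by omega))
  have hXe : ∀ j, Real.exp (Xs T a j) ≤ T ^ (1 / 4 : ℝ) := by
    intro j
    rw [Real.rpow_def_of_pos hTp, Real.exp_le_exp]
    unfold Xs
    rw [div_le_iff₀ (by positivity)]
    have : (4:ℝ) ≤ 2 ^ (a + j) := by
      calc (4:ℝ) = 2 ^ 2 := by norm_num
        _ ≤ 2 ^ (a + j) := pow_le_pow_right₀ (by norm_num) (by omega)
    nlinarith
  obtain ⟨B1, hB1⟩ : ∃ B1 : Set ℝ, B1 = {t : ℝ | t ∈ JJ T ∧ e / 2 * J ≤ |∑ j ∈ Finset.range J, SS (Xs T a j) t|} := ⟨_, rfl⟩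
  obtain ⟨B2, hB2⟩ : ∃ B2 : ℕ → Set ℝ, B2 = fun j => {t : ℝ | t ∈ Icc (T / 2) (3 * T) ∧ e / 2 ≤ ∫ u in (t - s)..(t + s), |SSd (Xs T a j) u|} :=
    ⟨_, rfl⟩
  have h1 := h T (e / 2) a J hTa hJ hJa ha hX (by positivity) (by linarith)
  rw [← hB1] at h1
  have h2 : ∀ j ∈ Finset.range J, volume (B2 j) ≤ ENNReal.ofReal (8 * Real.pi * C' / (2 ^ a * e) * (2:ℝ)⁻¹ ^ j * T) := by
    intro j hj
    rw [hB2]
    refine (thick_markov (SSd_cont _).abs (fun t => abs_nonneg _) hs0.le (by linarith) (by positivity)).trans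
      (ENNReal.ofReal_le_ofReal ?_)
    have h3 := h' T (Xs T a j) hTb (hX2 j (Finset.mem_range.1 hj)) (hXe j)
    calc 2 * s * (∫ u in (T / 4)..(4 * T), |SSd (Xs T a j) u|) / (e / 2) ≤ 2 * s * (C' * Xs T a j * T) / (e / 2) := by
          gcongr
      _ = 8 * Real.pi * C' / (2 ^ a * e) * (2:ℝ)⁻¹ ^ j * T := by
          rw [hs]
          unfold Xs
          rw [pow_add, inv_pow]
          field_simp
          ring
  refine ⟨B1 ∪ ⋃ j ∈ Finset.range J, B2 j, ?_, ?_⟩
  · refine (measure_union_le _ _).trans ((add_le_add h1 ((measure_biUnion_finset_le _ _).trans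
      (Finset.sum_le_sum h2))).trans ?_)
    rw [← ENNReal.ofReal_sum_of_nonneg (fun j _ => by positivity), ← ENNReal.ofReal_add (by positivity)
      (Finset.sum_nonneg fun j _ => by positivity)]
    refine ENNReal.ofReal_le_ofReal ?_
    rw [← Finset.sum_mul, ← add_mul]
    refine mul_le_mul_of_nonneg_right ?_ hTp.le
    rw [← Finset.mul_sum]
    have h4 : ∑ j ∈ Finset.range J, (2:ℝ)⁻¹ ^ j ≤ 2 := by
      have := geom_sum_eq (x := (2:ℝ)⁻¹) (by norm_num) J
      rw [this]
      have : (0:ℝ) ≤ 2⁻¹ ^ J := by positivity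
      rw [div_le_iff_of_neg (by norm_num)]
      linarith
    have h5 : 8 * Real.pi * C' / (2 ^ a * e) * ∑ j ∈ Finset.range J, (2:ℝ)⁻¹ ^ j ≤
        8 * (2 * Real.pi * C') / (2 ^ a * e) := by
      calc 8 * Real.pi * C' / (2 ^ a * e) * ∑ j ∈ Finset.range J, (2:ℝ)⁻¹ ^ j ≤ 8 * Real.pi * C' / (2 ^ a * e) * 2 :=
            mul_le_mul_of_nonneg_left h4 (by positivity)
        _ = _ := by ring
    have h6 : c * (e / 2) ^ 2 * J = c / 4 * e ^ 2 * J := by ring
    have h7 : C * (2 ^ (a + J) / (Real.log T * (e / 2))) ^ 2 = 4 * C * (2 ^ (a + J) / (Real.log T * e)) ^ 2 := by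
      field_simp
      ring
    have h8 : 8 * (2 * Real.pi * C') / (2 ^ a * e) ≤ (4 * C + 8 * (2 * Real.pi * C')) / (2 ^ a * e) :=
      div_le_div_of_nonneg_right (by linarith) (by positivity)
    have h9 : C * Real.exp (-(c / 4 * e ^ 2 * J)) ≤ (4 * C + 8 * (2 * Real.pi * C')) * Real.exp (-(c / 4 * e ^ 2 * J)) :=
      mul_le_mul_of_nonneg_right (by nlinarith [Real.pi_pos]) (Real.exp_pos _).le
    have h10 : 4 * C * (2 ^ (a + J) / (Real.log T * e)) ^ 2 ≤
        (4 * C + 8 * (2 * Real.pi * C')) * (2 ^ (a + J) / (Real.log T * e)) ^ 2 :=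
      mul_le_mul_of_nonneg_right (by nlinarith [Real.pi_pos]) (by positivity)
    rw [h6, h7]
    linarith
  · intro t' ht' hnot t htt
    rw [mem_union, not_or] at hnot
    obtain ⟨n1, n2⟩ := hnot
    have ht'J : t' ∈ JJ T := by
      rw [JJ]
      exact ⟨by linarith [ht'.1], by linarith [ht'.2]⟩
    have g1 : |∑ j ∈ Finset.range J, SS (Xs T a j) t'| ≤ e / 2 * J := by
      by_contra hgt
      rw [not_le] at hgt
      exact n1 (hB1 ▸ ⟨ht'J, hgt.le⟩)
    have g2 : ∀ j ∈ Finset.range J, ∫ u in (t' - s)..(t' + s), |SSd (Xs T a j) u| ≤ e / 2 := by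
      intro j hj
      by_contra hgt
      rw [not_le] at hgt
      apply n2
      refine mem_biUnion hj ?_
      rw [hB2]
      exact ⟨ht', hgt.le⟩
    have hst : |t - t'| ≤ s := by rw [hs]; exact htt
    have g3 : |∑ j ∈ Finset.range J, SS (Xs T a j) t - ∑ j ∈ Finset.range J, SS (Xs T a j) t'| ≤ e / 2 * J := by
      rw [← Finset.sum_sub_distrib]
      refine (Finset.abs_sum_le_sum_abs _ _).trans ((Finset.sum_le_sum (g := fun _ => e / 2) fun j hj => ?_).trans
        (le_of_eq ?_))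
      · exact (SS_sub_le hst).trans (g2 j hj)
      · rw [Finset.sum_const, Finset.card_range, nsmul_eq_mul]
        ring
    have g4 : |∑ j ∈ Finset.range J, SS (Xs T a j) t| ≤ e * J := by
      have e1 : ∑ j ∈ Finset.range J, SS (Xs T a j) t = ∑ j ∈ Finset.range J, SS (Xs T a j) t' +
          (∑ j ∈ Finset.range J, SS (Xs T a j) t - ∑ j ∈ Finset.range J, SS (Xs T a j) t') := by ring
      rw [e1]
      refine (abs_add_le _ _).trans ?_
      linarith
    exact g4

end Pool.Agent.Helper82.NR
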