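import Pool.Agent.Helper24.NR.Defs
import Pool.Agent.Helper82.NR.Thick

/-!
# NR: the prime side (`SL`), thick form and tail
-/

set_option autoImplicit false
open MeasureTheory Set Filter Topology
open Pool.Agent.Helper57.TX (JJ)
open Pool.Agent.Helper54.LG (SS)
open Pool.Agent.Helper93.UG (sp)
open Pool.Agent.Helper69.UG (XX)
open Pool.Agent.Helper24.NR

namespace Pool.Agent.Helper82.NR

/-- The scales are consecutive. -/
theorem scales : ∃ C : ℝ, 1 ≤ C ∧ ∀ L : ℝ, C ≤ L → ∃ a J : ℕ,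
    (∀ f : ℕ → ℝ, ∑ j ∈ Js L, f j = ∑ j ∈ Finset.range J, f (a + j)) ∧ (Js L).card = J ∧ 1 ≤ J ∧ (J : ℝ) ≤ 2 ^ a ∧
    2 ≤ a ∧ L ^ (1 / 6 : ℝ) ≤ 2 ^ a ∧ (2:ℝ) ^ (a + J) ≤ 2 * L ^ (1 / 3 : ℝ) ∧ Real.log L / 6 ≤ J := by
  classical
  refine ⟨Real.exp 24, Real.one_le_exp (by norm_num), fun L hL => ?_⟩
  have hL1 : 64 < L := by
    have h1 : (24:ℝ) + 1 ≤ Real.exp 24 := Real.add_one_le_exp 24
    have h2 : Real.exp 24 = Real.exp 12 * Real.exp 12 := by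
      rw [← Real.exp_add]
      norm_num
    have h3 : (12:ℝ) + 1 ≤ Real.exp 12 := Real.add_one_le_exp 12
    nlinarith
  have hL0 : 0 < L := by linarith
  have hlogL : 24 ≤ Real.log L := by
    rw [Real.le_log_iff_exp_le hL0]
    exact hL
  have hex : ∃ n : ℕ, L ≤ (2:ℝ) ^ (6 * n) := by
    obtain ⟨n, hn⟩ := pow_unbounded_of_one_lt L (by norm_num : (1:ℝ) < 2)
    exact ⟨n, hn.le.trans (pow_le_pow_right₀ (by norm_num) (by omega))⟩
  obtain ⟨a, ha⟩ : ∃ a : ℕ, a = Nat.find hex := ⟨_, rfl⟩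
  obtain ⟨b, hb⟩ : ∃ b : ℕ, b = Nat.findGreatest (fun j => (2:ℝ) ^ (3 * j) ≤ L) ⌊L⌋₊ := ⟨_, rfl⟩
  have ha1 : L ≤ (2:ℝ) ^ (6 * a) := by
    rw [ha]
    exact Nat.find_spec hex
  have hamin : ∀ n : ℕ, L ≤ (2:ℝ) ^ (6 * n) → a ≤ n := fun n hn => by
    rw [ha]
    exact Nat.find_min' hex hn
  have hb1 : (2:ℝ) ^ (3 * b) ≤ L := by
    have := Nat.findGreatest_spec (P := fun j => (2:ℝ) ^ (3 * j) ≤ L) (m := 0) (n := ⌊L⌋₊) (Nat.zero_le _)
      (by norm_num; linarith)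
    rw [hb]
    exact this
  have hbmax : ∀ n : ℕ, (2:ℝ) ^ (3 * n) ≤ L → n ≤ b := by
    intro n hn
    rw [hb]
    apply Nat.le_findGreatest _ hn
    apply Nat.le_floor
    refine le_trans ?_ hn
    have h1 : n < 2 ^ n := Nat.lt_two_pow_self
    have h2 : (n:ℝ) ≤ 2 ^ n := by exact_mod_cast h1.le
    exact h2.trans (pow_le_pow_right₀ (by norm_num) (by omega))
  have hbf : b ≤ ⌊L⌋₊ := by
    rw [hb]
    exact Nat.findGreatest_le _
  have ha2 : 2 ≤ a := by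
    by_contra h
    have h1 : a ≤ 1 := by omega
    have h2 : (2:ℝ) ^ (6 * a) ≤ 2 ^ 6 := pow_le_pow_right₀ (by norm_num) (by omega)
    norm_num at h2
    linarith
  have hlog2 : 0 < Real.log 2 := Real.log_pos (by norm_num)
  have hl2 := Real.log_two_lt_d9
  have hl2' := Real.log_two_gt_d9
  have ha3 : 6 * ((a:ℝ) - 1) * Real.log 2 < Real.log L := by
    have h1 : ¬ L ≤ (2:ℝ) ^ (6 * (a - 1)) := fun h => by
      have := hamin _ h
      omega
    rw [not_le] at h1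
    have h2 := Real.log_lt_log (by positivity) h1
    rw [Real.log_pow] at h2
    push_cast [Nat.cast_sub (show 1 ≤ a by omega)] at h2
    linarith
  have hb3 : Real.log L < 3 * ((b:ℝ) + 1) * Real.log 2 := by
    have h1 : ¬ (2:ℝ) ^ (3 * (b + 1)) ≤ L := fun h => by
      have := hbmax _ h
      omega
    rw [not_le] at h1
    have h2 := Real.log_lt_log hL0 h1
    rw [Real.log_pow] at h2
    push_cast at h2
    linarith
  have hb4 : 3 * (b:ℝ) * Real.log 2 ≤ Real.log L := by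
    have h2 := Real.log_le_log (by positivity) hb1
    rw [Real.log_pow] at h2
    push_cast at h2
    linarith
  have hdiff : Real.log L / 6 ≤ (b:ℝ) + 1 - a := by
    have h1 : ((b:ℝ) + 1 - a) * (6 * Real.log 2) ≥ Real.log L - 6 * Real.log 2 := by nlinarith
    by_contra hneg
    rw [not_le] at hneg
    nlinarith
  have hab : a ≤ b + 1 := by
    have h1 : (a:ℝ) ≤ (b:ℝ) + 1 := by linarith
    exact_mod_cast h1
  have hJ : (((b + 1 - a : ℕ)) : ℝ) = (b:ℝ) + 1 - a := by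
    push_cast [Nat.cast_sub hab]
    ring
  have hset : Js L = Finset.Ico a (b + 1) := by
    ext j
    unfold Js
    rw [Finset.mem_filter, Finset.mem_range, Finset.mem_Ico]
    constructor
    · rintro ⟨_, h2, h3⟩
      exact ⟨hamin j h2, Nat.lt_succ_of_le (hbmax j h3)⟩
    · rintro ⟨h1, h2⟩
      refine ⟨by omega, ha1.trans (pow_le_pow_right₀ (by norm_num) (by omega)), le_trans ?_ hb1⟩
      exact pow_le_pow_right₀ (by norm_num) (by omega)
  refine ⟨a, b + 1 - a, fun f => ?_, ?_, ?_, ?_, ha2, ?_, ?_, ?_⟩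
  · rw [hset, Finset.sum_Ico_eq_sum_range]
  · rw [hset, Nat.card_Ico]
  · have h1 : (1:ℝ) ≤ ((b + 1 - a : ℕ) : ℝ) := by
      rw [hJ]
      linarith
    exact_mod_cast h1
  · rw [hJ]
    have h1 : (b:ℝ) + 1 - a ≤ Real.log L / 2 + 1 := by
      have : (0:ℝ) ≤ a := Nat.cast_nonneg _
      nlinarith
    have h2 : L ^ (1 / 6 : ℝ) ≤ 2 ^ a := by
      have h3 : L ≤ ((2:ℝ) ^ a) ^ (6:ℝ) := by
        rw [show (6:ℝ) = ((6:ℕ) : ℝ) by norm_num, Real.rpow_natCast, ← pow_mul, mul_comm]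
        exact ha1
      calc L ^ (1 / 6 : ℝ) ≤ (((2:ℝ) ^ a) ^ (6:ℝ)) ^ (1 / 6 : ℝ) := Real.rpow_le_rpow hL0.le h3 (by norm_num)
        _ = 2 ^ a := by
            rw [← Real.rpow_mul (by positivity)]
            norm_num
    have h3 : 1 + Real.log L / 6 + (Real.log L / 6) ^ 2 / 2 ≤ L ^ (1 / 6 : ℝ) := by
      rw [Real.rpow_def_of_pos hL0]
      have h4 := Real.quadratic_le_exp_of_nonneg (x := Real.log L * (1 / 6)) (by positivity)
      refine le_trans (le_of_eq ?_) h4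
      ring
    have h5 : Real.log L / 2 + 1 ≤ 1 + Real.log L / 6 + (Real.log L / 6) ^ 2 / 2 := by nlinarith
    linarith
  · have h3 : L ≤ ((2:ℝ) ^ a) ^ (6:ℝ) := by
      rw [show (6:ℝ) = ((6:ℕ) : ℝ) by norm_num, Real.rpow_natCast, ← pow_mul, mul_comm]
      exact ha1
    calc L ^ (1 / 6 : ℝ) ≤ (((2:ℝ) ^ a) ^ (6:ℝ)) ^ (1 / 6 : ℝ) := Real.rpow_le_rpow hL0.le h3 (by norm_num)
      _ = 2 ^ a := by
          rw [← Real.rpow_mul (by positivity)]
          norm_num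
  · have h1 : a + (b + 1 - a) = b + 1 := by omega
    rw [h1, pow_succ, mul_comm]
    have h3 : ((2:ℝ) ^ b) ^ (3:ℝ) ≤ L := by
      rw [show (3:ℝ) = ((3:ℕ) : ℝ) by norm_num, Real.rpow_natCast, ← pow_mul, mul_comm]
      exact hb1
    have h4 : (2:ℝ) ^ b ≤ L ^ (1 / 3 : ℝ) := by
      calc (2:ℝ) ^ b = (((2:ℝ) ^ b) ^ (3:ℝ)) ^ (1 / 3 : ℝ) := by
            rw [← Real.rpow_mul (by positivity)]
            norm_num
        _ ≤ L ^ (1 / 3 : ℝ) := Real.rpow_le_rpow (by positivity) h3 (by norm_num)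
    linarith
  · rw [hJ]
    exact hdiff

/-- The bound of both theorems for `e ≥ L^(-1/20)`. -/
theorem bound_le : ∀ C1 c1 : ℝ, 0 < C1 → 0 < c1 → ∀ c : ℝ, 0 < c → c ≤ c1 * (2 / 27) → c ≤ 1 / 10 →
    ∀ (L e lT : ℝ) (a J : ℕ), 1 ≤ L → L ≤ lT → 0 < e → e ≤ 1 → L ^ (-(1 / 20) : ℝ) ≤ e → L ^ (1 / 6 : ℝ) ≤ 2 ^ a →
    (2:ℝ) ^ (a + J) ≤ 2 * L ^ (1 / 3 : ℝ) → Real.log L / 6 ≤ J →
    C1 * Real.exp (-(c1 * (2 / 3 * e) ^ 2 * J)) + C1 / (2 ^ a * (2 / 3 * e)) + C1 * (2 ^ (a + J) / (lT * (2 / 3 * e))) ^ 2 ≤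
      (12 * C1) * L ^ (-(c * e ^ 2)) := by
  intro C1 c1 hC1 hc1 c hc hcc hc10 L e lT a J hL hLT he he1 heL ha haJ hJ
  have hL0 : 0 < L := by linarith
  have hlT : 0 < lT := by linarith
  have hlog : 0 ≤ Real.log L := Real.log_nonneg hL
  have he2 : e ^ 2 ≤ 1 := pow_le_one₀ he.le he1
  have hpos : 0 < L ^ (-(c * e ^ 2)) := by positivity
  -- first
  have h1 : Real.exp (-(c1 * (2 / 3 * e) ^ 2 * J)) ≤ L ^ (-(c * e ^ 2)) := by
    rw [Real.rpow_def_of_pos hL0, Real.exp_le_exp]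
    have g1 : c * e ^ 2 ≤ c1 * (2 / 27) * e ^ 2 := mul_le_mul_of_nonneg_right hcc (sq_nonneg e)
    have g2 : c1 * (2 / 3 * e) ^ 2 * (Real.log L / 6) ≤ c1 * (2 / 3 * e) ^ 2 * J :=
      mul_le_mul_of_nonneg_left hJ (by positivity)
    have g3 : c1 * (2 / 3 * e) ^ 2 * (Real.log L / 6) = c1 * (2 / 27) * e ^ 2 * Real.log L := by ring
    have g4 : c * e ^ 2 * Real.log L ≤ c1 * (2 / 27) * e ^ 2 * Real.log L := mul_le_mul_of_nonneg_right g1 hlog
    linarith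
  have hexp : ∀ x : ℝ, x ≤ -(1 / 10 : ℝ) → L ^ x ≤ L ^ (-(c * e ^ 2)) := by
    intro x hx
    apply Real.rpow_le_rpow_of_exponent_le hL
    have : c * e ^ 2 ≤ 1 / 10 * 1 := mul_le_mul hc10 he2 (sq_nonneg e) (by norm_num)
    linarith
  -- second
  have h2 : 1 / (2 ^ a * (2 / 3 * e)) ≤ 3 / 2 * L ^ (-(c * e ^ 2)) := by
    have g1 : L ^ (1 / 6 : ℝ) * L ^ (-(1 / 20) : ℝ) ≤ 2 ^ a * e := mul_le_mul ha heL (by positivity) (by positivity)
    rw [← Real.rpow_add hL0] at g1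
    have g2 : 0 < L ^ (1 / 6 + -(1 / 20) : ℝ) := by positivity
    calc 1 / (2 ^ a * (2 / 3 * e)) = 3 / 2 * (1 / (2 ^ a * e)) := by
          field_simp
      _ ≤ 3 / 2 * (1 / L ^ (1 / 6 + -(1 / 20) : ℝ)) :=
          mul_le_mul_of_nonneg_left (one_div_le_one_div_of_le g2 g1) (by norm_num)
      _ = 3 / 2 * L ^ (-(1 / 6 + -(1 / 20)) : ℝ) := by
          rw [Real.rpow_neg hL0.le, one_div]
      _ ≤ _ := mul_le_mul_of_nonneg_left (hexp _ (by norm_num)) (by norm_num)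
  -- third
  have h3 : (2 ^ (a + J) / (lT * (2 / 3 * e))) ^ 2 ≤ 9 * L ^ (-(c * e ^ 2)) := by
    have g1 : 2 ^ (a + J) / (lT * (2 / 3 * e)) ≤ 3 * L ^ (1 / 3 + -(1 - 1 / 20) : ℝ) := by
      rw [div_le_iff₀ (by positivity)]
      have g2 : L ^ (1 - 1 / 20 : ℝ) ≤ lT * e := by
        calc L ^ (1 - 1 / 20 : ℝ) = L * L ^ (-(1 / 20) : ℝ) := by
              rw [show (1 - 1 / 20 : ℝ) = 1 + -(1 / 20) by norm_num, Real.rpow_add hL0, Real.rpow_one]
          _ ≤ lT * e := mul_le_mul hLT heL (by positivity) hlT.le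
      have g3 : L ^ (1 / 3 + -(1 - 1 / 20) : ℝ) * L ^ (1 - 1 / 20 : ℝ) = L ^ (1 / 3 : ℝ) := by
        rw [← Real.rpow_add hL0]
        norm_num
      calc (2:ℝ) ^ (a + J) ≤ 2 * L ^ (1 / 3 : ℝ) := haJ
        _ = 2 * (L ^ (1 / 3 + -(1 - 1 / 20) : ℝ) * L ^ (1 - 1 / 20 : ℝ)) := by rw [g3]
        _ ≤ 2 * (L ^ (1 / 3 + -(1 - 1 / 20) : ℝ) * (lT * e)) := by gcongr
        _ = 3 * L ^ (1 / 3 + -(1 - 1 / 20) : ℝ) * (lT * (2 / 3 * e)) := by ring
    have g4 : 0 ≤ 2 ^ (a + J) / (lT * (2 / 3 * e)) := by positivity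
    calc (2 ^ (a + J) / (lT * (2 / 3 * e))) ^ 2 ≤ (3 * L ^ (1 / 3 + -(1 - 1 / 20) : ℝ)) ^ 2 := pow_le_pow_left₀ g4 g1 2
      _ = 9 * (L ^ (1 / 3 + -(1 - 1 / 20) : ℝ) * L ^ (1 / 3 + -(1 - 1 / 20) : ℝ)) := by ring
      _ = 9 * L ^ ((1 / 3 + -(1 - 1 / 20)) + (1 / 3 + -(1 - 1 / 20)) : ℝ) := by rw [← Real.rpow_add hL0]
      _ ≤ _ := mul_le_mul_of_nonneg_left (hexp _ (by norm_num)) (by norm_num)
  calc _ ≤ C1 * L ^ (-(c * e ^ 2)) + C1 * (3 / 2 * L ^ (-(c * e ^ 2))) + C1 * (9 * L ^ (-(c * e ^ 2))) := by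
        refine add_le_add (add_le_add (mul_le_mul_of_nonneg_left h1 hC1.le) ?_) (mul_le_mul_of_nonneg_left h3 hC1.le)
        calc C1 / (2 ^ a * (2 / 3 * e)) = C1 * (1 / (2 ^ a * (2 / 3 * e))) := by ring
          _ ≤ _ := mul_le_mul_of_nonneg_left h2 hC1.le
    _ ≤ _ := by nlinarith

/-- For small `e` the bound is trivial. -/
theorem bound_triv {c L e : ℝ} (hc : 0 < c) (hc10 : c ≤ 1 / 10) (hL : 1 ≤ L) (he : 0 < e)
    (heL : e < L ^ (-(1 / 20) : ℝ)) : 1 / 4 ≤ L ^ (-(c * e ^ 2)) := by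
  have hL0 : 0 < L := by linarith
  have hlog : 0 ≤ Real.log L := Real.log_nonneg hL
  have h1 : Real.log L ≤ 10 * L ^ (1 / 10 : ℝ) := by
    have := Real.log_le_rpow_div hL0.le (ε := 1 / 10) (by norm_num)
    linarith
  have h2 : e ^ 2 ≤ L ^ (-(1 / 10) : ℝ) := by
    calc e ^ 2 ≤ (L ^ (-(1 / 20) : ℝ)) ^ 2 := pow_le_pow_left₀ he.le heL.le 2
      _ = L ^ (-(1 / 20) : ℝ) * L ^ (-(1 / 20) : ℝ) := by ring
      _ = L ^ (-(1 / 10) : ℝ) := by
          rw [← Real.rpow_add hL0]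
          norm_num
  have h3 : L ^ (1 / 10 : ℝ) * L ^ (-(1 / 10) : ℝ) = 1 := by
    rw [← Real.rpow_add hL0]
    norm_num
  have h4 : Real.log L * e ^ 2 ≤ 10 := by
    calc Real.log L * e ^ 2 ≤ (10 * L ^ (1 / 10 : ℝ)) * L ^ (-(1 / 10) : ℝ) := mul_le_mul h1 h2 (sq_nonneg e) (by positivity)
      _ = 10 * (L ^ (1 / 10 : ℝ) * L ^ (-(1 / 10) : ℝ)) := by ring
      _ = 10 := by rw [h3]; ring
  have h5 : c * (Real.log L * e ^ 2) ≤ 1 := by nlinarith
  rw [Real.rpow_def_of_pos hL0]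
  have h6 : (-1:ℝ) ≤ Real.log L * -(c * e ^ 2) := by nlinarith
  have h7 : 1 / 4 ≤ Real.exp (-1) := by
    rw [Real.exp_neg, one_div]
    have := Real.exp_one_lt_d9
    exact inv_anti₀ (Real.exp_pos 1) (by linarith)
  exact h7.trans (Real.exp_le_exp.2 h6)

/-- The prime side, thick form. -/
theorem sl_thick : ∃ c C T₀ : ℝ, 0 < c ∧ 1 ≤ C ∧ ∀ T L e : ℝ, T₀ ≤ T → C ≤ L → L ≤ Real.log T → 0 < e → e ≤ 1 →
    ∃ E : Set ℝ, volume E ≤ ENNReal.ofReal (C * L ^ (-(c * e ^ 2)) * T) ∧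
      ∀ t, t ∈ Icc (T / 2) (3 * T) → ∀ u, |u - t| ≤ sp T → e < |SL T L u| → t ∈ E := by
  obtain ⟨C0, hC0, hsc⟩ := scales
  obtain ⟨C1, c1, T1, hC1, hc1, hth⟩ := ss_thick
  obtain ⟨c, hc⟩ : ∃ c : ℝ, c = min (c1 * (2 / 27)) (1 / 10) := ⟨_, rfl⟩
  have hc0 : 0 < c := by
    rw [hc]
    exact lt_min (by positivity) (by norm_num)
  have hcc : c ≤ c1 * (2 / 27) := hc ▸ min_le_left _ _
  have hc10 : c ≤ 1 / 10 := hc ▸ min_le_right _ _
  refine ⟨c, max (max C0 10) (12 * C1), max T1 1, hc0, ?_, fun T L e hT hL hLT he he1 => ?_⟩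
  · exact le_max_of_le_left (le_max_of_le_right (by norm_num))
  have hLC0 : C0 ≤ L := (le_max_left _ _).trans ((le_max_left _ _).trans hL)
  have hL10 : 10 ≤ L := (le_max_right _ _).trans ((le_max_left _ _).trans hL)
  have hT1 : T1 ≤ T := (le_max_left _ _).trans hT
  have hTp : 0 < T := by linarith [(le_max_right T1 1).trans hT]
  have hL1 : 1 ≤ L := by linarith
  have hL0 : 0 < L := by linarith
  have hlT : 0 < Real.log T := by linarith
  have hC10 : 10 ≤ max (max C0 10) (12 * C1) := le_max_of_le_left (le_max_right _ _)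
  have hC12 : 12 * C1 ≤ max (max C0 10) (12 * C1) := le_max_right _ _
  rcases lt_or_ge e (L ^ (-(1 / 20) : ℝ)) with hsm | hla
  · refine ⟨Icc (T / 2) (3 * T), ?_, fun t ht u _ _ => ht⟩
    rw [Real.volume_Icc]
    refine ENNReal.ofReal_le_ofReal ?_
    have h1 := bound_triv hc0 hc10 hL1 he hsm
    have h2 : 10 * (1 / 4 : ℝ) ≤ max (max C0 10) (12 * C1) * L ^ (-(c * e ^ 2)) :=
      mul_le_mul hC10 h1 (by norm_num) (by linarith)
    nlinarith
  · obtain ⟨a, J, hsum, hcard, hJ1, hJa, ha2, haL, haJ, hJL⟩ := hsc L hLC0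
    have hJ0 : (0:ℝ) < J := by exact_mod_cast hJ1
    have hX : 1 / 2 ≤ Real.log T / 2 ^ (a + J) := by
      rw [div_le_div_iff₀ (by norm_num) (by positivity)]
      have h1 : L ^ (1 / 3 : ℝ) ≤ L := by
        calc L ^ (1 / 3 : ℝ) ≤ L ^ (1 : ℝ) := Real.rpow_le_rpow_of_exponent_le hL1 (by norm_num)
          _ = L := Real.rpow_one L
      linarith
    obtain ⟨B, hB, hBt⟩ := hth T (2 / 3 * e) a J hT1 hJ1 hJa ha2 hX (by positivity) (by linarith)
    refine ⟨B, hB.trans (ENNReal.ofReal_le_ofReal ?_), fun t ht u hu hgt => ?_⟩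
    · refine mul_le_mul_of_nonneg_right ?_ hTp.le
      refine (bound_le C1 c1 hC1 hc1 c hc0 hcc hc10 L e (Real.log T) a J hL1 hLT he he1 hla haL haJ hJL).trans ?_
      exact mul_le_mul_of_nonneg_right hC12 (by positivity)
    · by_contra hnot
      have h1 := hBt t ht hnot u (by
        have : sp T = 2 * Real.pi / Real.log T := rfl
        rw [← this]
        exact hu)
      have h2 : SL T L u = 3 / (2 * (J:ℝ)) * ∑ j ∈ Finset.range J, SS (Real.log T / 2 ^ (a + j)) u := by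
        unfold SL wJ
        rw [hsum, hcard]
        rfl
      rw [h2, abs_mul, abs_of_pos (by positivity)] at hgt
      have h3 : 3 / (2 * (J:ℝ)) * |∑ j ∈ Finset.range J, SS (Real.log T / 2 ^ (a + j)) u| ≤ 3 / (2 * (J:ℝ)) * (2 / 3 * e * J) :=
        mul_le_mul_of_nonneg_left h1 (by positivity)
      have h4 : 3 / (2 * (J:ℝ)) * (2 / 3 * e * J) = e := by
        field_simp
      linarith

/-- D4: the prime sum. -/
theorem prime_tail : ∃ c C T₀ : ℝ, 0 < c ∧ 1 ≤ C ∧ ∀ T L e : ℝ, T₀ ≤ T → C ≤ L → L ≤ Real.log T → 0 < e → e ≤ 1 →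
    volume {t : ℝ | t ∈ Pool.Agent.Helper57.TX.JJ T ∧ e < |SL T L t|} ≤ ENNReal.ofReal (C * L ^ (-(c * e ^ 2)) * T) := by
  obtain ⟨C0, hC0, hsc⟩ := scales
  obtain ⟨C1, c1, T1, hC1, hc1, hth⟩ := ss_scales
  obtain ⟨c, hc⟩ : ∃ c : ℝ, c = min (c1 * (2 / 27)) (1 / 10) := ⟨_, rfl⟩
  have hc0 : 0 < c := by
    rw [hc]
    exact lt_min (by positivity) (by norm_num)
  have hcc : c ≤ c1 * (2 / 27) := hc ▸ min_le_left _ _
  have hc10 : c ≤ 1 / 10 := hc ▸ min_le_right _ _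
  refine ⟨c, max (max C0 16) (12 * C1), max T1 1, hc0, ?_, fun T L e hT hL hLT he he1 => ?_⟩
  · exact le_max_of_le_left (le_max_of_le_right (by norm_num))
  have hLC0 : C0 ≤ L := (le_max_left _ _).trans ((le_max_left _ _).trans hL)
  have hL10 : 16 ≤ L := (le_max_right _ _).trans ((le_max_left _ _).trans hL)
  have hT1 : T1 ≤ T := (le_max_left _ _).trans hT
  have hTp : 0 < T := by linarith [(le_max_right T1 1).trans hT]
  have hL1 : 1 ≤ L := by linarith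
  have hL0 : 0 < L := by linarith
  have hlT : 0 < Real.log T := by linarith
  have hC10 : 16 ≤ max (max C0 16) (12 * C1) := le_max_of_le_left (le_max_right _ _)
  have hC12 : 12 * C1 ≤ max (max C0 16) (12 * C1) := le_max_right _ _
  rcases lt_or_ge e (L ^ (-(1 / 20) : ℝ)) with hsm | hla
  · refine (measure_mono (t := Icc (T / 2) (4 * T)) fun t ht => ht.1).trans ?_
    rw [Real.volume_Icc]
    refine ENNReal.ofReal_le_ofReal ?_
    have h1 := bound_triv hc0 hc10 hL1 he hsm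
    have h2 : 16 * (1 / 4 : ℝ) ≤ max (max C0 16) (12 * C1) * L ^ (-(c * e ^ 2)) :=
      mul_le_mul hC10 h1 (by norm_num) (by linarith)
    nlinarith
  · obtain ⟨a, J, hsum, hcard, hJ1, hJa, ha2, haL, haJ, hJL⟩ := hsc L hLC0
    have hJ0 : (0:ℝ) < J := by exact_mod_cast hJ1
    have hX : 1 / 2 ≤ Real.log T / 2 ^ (a + J) := by
      rw [div_le_div_iff₀ (by norm_num) (by positivity)]
      have h1 : L ^ (1 / 3 : ℝ) ≤ L := by
        calc L ^ (1 / 3 : ℝ) ≤ L ^ (1 : ℝ) := Real.rpow_le_rpow_of_exponent_le hL1 (by norm_num)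
          _ = L := Real.rpow_one L
      linarith
    have hB := hth T (2 / 3 * e) a J hT1 hJ1 hJa ha2 hX (by positivity) (by linarith)
    have hsub : {t : ℝ | t ∈ JJ T ∧ e < |SL T L t|} ⊆
        {t : ℝ | t ∈ JJ T ∧ 2 / 3 * e * J ≤ |∑ j ∈ Finset.range J, SS (Xs T a j) t|} := by
      rintro t ⟨ht, hgt⟩
      refine ⟨ht, ?_⟩
      by_contra hlt
      rw [not_le] at hlt
      have h2 : SL T L t = 3 / (2 * (J:ℝ)) * ∑ j ∈ Finset.range J, SS (Xs T a j) t := by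
        unfold SL wJ Xs
        rw [hsum, hcard]
        rfl
      rw [h2, abs_mul, abs_of_pos (by positivity)] at hgt
      have h3 : 3 / (2 * (J:ℝ)) * |∑ j ∈ Finset.range J, SS (Xs T a j) t| ≤ 3 / (2 * (J:ℝ)) * (2 / 3 * e * J) :=
        mul_le_mul_of_nonneg_left hlt.le (by positivity)
      have h4 : 3 / (2 * (J:ℝ)) * (2 / 3 * e * J) = e := by
        field_simp
      linarith
    refine (measure_mono hsub).trans (hB.trans (ENNReal.ofReal_le_ofReal ?_))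
    refine mul_le_mul_of_nonneg_right ?_ hTp.le
    have h5 := bound_le C1 c1 hC1 hc1 c hc0 hcc hc10 L e (Real.log T) a J hL1 hLT he he1 hla haL haJ hJL
    have h6 : 0 ≤ C1 / (2 ^ a * (2 / 3 * e)) := by positivity
    have h7 : 12 * C1 * L ^ (-(c * e ^ 2)) ≤ max (max C0 16) (12 * C1) * L ^ (-(c * e ^ 2)) :=
      mul_le_mul_of_nonneg_right hC12 (by positivity)
    linarith

end Pool.Agent.Helper82.NR
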