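import Pool.Agent.Helper25.TX.SsPt
import Pool.Agent.Helper78.SG.MV
import Pool.Agent.Helper49.TX.Mom

/-!
# NR: the contribution of the prime powers to the prime sum of scale `X` is small in mean square
-/

set_option autoImplicit false
open MeasureTheory Set Filter Topology
open Pool.Agent.Helper57.TX
open Pool.Agent.Helper54.LG (SS)

namespace Pool.Agent.Helper82.NR

open Pool.Agent.Helper25.TX (geo DP_re)

/-- squares of the coefficients of the prime powers other than primes -/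
theorem np_sq : ∃ C : ℝ, 0 < C ∧ ∀ N : ℕ,
    ∑ n ∈ (Finset.range (N + 1)).filter (fun n => ¬ n.Prime), (ArithmeticFunction.vonMangoldt n / √n) ^ 2 ≤ C := by
  classical
  have hs : Summable fun n : ℕ => 1 / (n : ℝ) ^ (3 / 2 : ℝ) :=
    Real.summable_one_div_nat_rpow.2 (by norm_num)
  refine ⟨4 * 16 * (∑' n : ℕ, 1 / (n : ℝ) ^ (3 / 2 : ℝ)) + 1, ?_, fun N => ?_⟩
  · have : 0 ≤ ∑' n : ℕ, 1 / (n : ℝ) ^ (3 / 2 : ℝ) := tsum_nonneg fun n => by positivity
    linarith
  set P := (Finset.range (N + 1)).filter Nat.Prime with hP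
  have h1 : ∀ n ∈ (Finset.range (N + 1)).filter (fun n => ¬ n.Prime), (ArithmeticFunction.vonMangoldt n / √n) ^ 2 ≤
      ∑ p ∈ P, ∑ k ∈ Finset.Icc 2 N, (if p ^ k = n then Real.log p ^ 2 * (1 / (p : ℝ)) ^ k else 0) := by
    intro n hn
    rw [Finset.mem_filter, Finset.mem_range] at hn
    have hnn : ∀ p ∈ P, ∀ k ∈ Finset.Icc 2 N, (0:ℝ) ≤ (if p ^ k = n then Real.log p ^ 2 * (1 / (p : ℝ)) ^ k else 0) := by
      intro p hp k _
      split_ifs <;> positivity
    by_cases hz : ArithmeticFunction.vonMangoldt n = 0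
    · rw [hz, zero_div, zero_pow (by norm_num)]
      exact Finset.sum_nonneg fun p hp => Finset.sum_nonneg fun k hk => hnn p hp k hk
    · have hpp : IsPrimePow n := ArithmeticFunction.vonMangoldt_ne_zero_iff.1 hz
      obtain ⟨p, k, hp, hk, hpk⟩ := (isPrimePow_nat_iff n).1 hpp
      have hk2 : 2 ≤ k := by
        rcases Nat.lt_or_ge k 2 with h | h
        · have : k = 1 := by omega
          rw [this, pow_one] at hpk
          exact absurd (hpk ▸ hp) hn.2
        · exact h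
      have hkN : k ≤ N := by
        have := Nat.lt_pow_self hp.one_lt (n := k)
        omega
      have hpN : p ≤ N := by
        have h3 : p ≤ p ^ k := Nat.le_self_pow (by omega) p
        omega
      have hpP : p ∈ P := by
        rw [hP, Finset.mem_filter, Finset.mem_range]
        exact ⟨by omega, hp⟩
      have hkI : k ∈ Finset.Icc 2 N := Finset.mem_Icc.2 ⟨hk2, hkN⟩
      have h4 : (ArithmeticFunction.vonMangoldt n / √n) ^ 2 = (if p ^ k = n then Real.log p ^ 2 * (1 / (p : ℝ)) ^ k else 0) := by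
        rw [if_pos hpk, ← hpk, ArithmeticFunction.vonMangoldt_apply_pow (by omega),
          ArithmeticFunction.vonMangoldt_apply_prime hp, div_pow, Real.sq_sqrt (Nat.cast_nonneg _)]
        push_cast
        rw [one_div, inv_pow, div_eq_mul_inv]
      rw [h4]
      calc (if p ^ k = n then Real.log p ^ 2 * (1 / (p : ℝ)) ^ k else 0) ≤
          ∑ k ∈ Finset.Icc 2 N, (if p ^ k = n then Real.log p ^ 2 * (1 / (p : ℝ)) ^ k else 0) :=
            Finset.single_le_sum (f := fun k => (if p ^ k = n then Real.log p ^ 2 * (1 / (p : ℝ)) ^ k else 0))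
              (fun k hk => hnn p hpP k hk) hkI
        _ ≤ _ := Finset.single_le_sum (f := fun p : ℕ => ∑ k ∈ Finset.Icc 2 N, (if p ^ k = n then Real.log p ^ 2 * (1 / (p : ℝ)) ^ k else 0))
              (fun p hp => Finset.sum_nonneg fun k hk => hnn p hp k hk) hpP
  refine (Finset.sum_le_sum h1).trans ?_
  rw [Finset.sum_comm]
  have h6 : ∀ p ∈ P, ∑ n ∈ (Finset.range (N + 1)).filter (fun n => ¬ n.Prime), ∑ k ∈ Finset.Icc 2 N,
      (if p ^ k = n then Real.log p ^ 2 * (1 / (p : ℝ)) ^ k else 0) ≤ 4 * 16 * (1 / (p : ℝ) ^ (3 / 2 : ℝ)) := by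
    intro p hp
    rw [hP, Finset.mem_filter] at hp
    have hp0 : (0:ℝ) < p := by exact_mod_cast hp.2.pos
    have hp2 : (2:ℝ) ≤ p := by exact_mod_cast hp.2.two_le
    have h2 : 0 ≤ Real.log p := Real.log_nonneg (by linarith)
    rw [Finset.sum_comm]
    have h7 : ∀ k ∈ Finset.Icc 2 N, ∑ n ∈ (Finset.range (N + 1)).filter (fun n => ¬ n.Prime),
        (if p ^ k = n then Real.log p ^ 2 * (1 / (p : ℝ)) ^ k else 0) ≤ Real.log p ^ 2 * (1 / (p : ℝ)) ^ k := by
      intro k _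
      rw [Finset.sum_ite_eq]
      split_ifs
      · exact le_rfl
      · positivity
    refine (Finset.sum_le_sum h7).trans ?_
    rw [← Finset.mul_sum]
    have h8 : 1 / (p : ℝ) ≤ 3 / 4 := by
      rw [div_le_div_iff₀ hp0 (by norm_num)]
      linarith
    have h10 := geo (x := 1 / (p : ℝ)) (by positivity) h8 N
    have h11 : Real.log p ≤ 4 * (p : ℝ) ^ (1 / 4 : ℝ) := by
      have := Real.log_le_rpow_div hp0.le (ε := 1 / 4) (by norm_num)
      linarith
    have h12 : Real.log p ^ 2 ≤ 16 * (p : ℝ) ^ (1 / 2 : ℝ) := by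
      calc Real.log p ^ 2 ≤ (4 * (p : ℝ) ^ (1 / 4 : ℝ)) ^ 2 := pow_le_pow_left₀ h2 h11 2
        _ = 16 * ((p : ℝ) ^ (1 / 4 : ℝ) * (p : ℝ) ^ (1 / 4 : ℝ)) := by ring
        _ = 16 * (p : ℝ) ^ (1 / 2 : ℝ) := by
            rw [← Real.rpow_add hp0]
            norm_num
    have h13 : (p : ℝ) ^ (1 / 2 : ℝ) * (1 / (p : ℝ)) ^ 2 = 1 / (p : ℝ) ^ (3 / 2 : ℝ) := by
      have e1 : (p : ℝ) ^ (1 / 2 : ℝ) * (p : ℝ) ^ (3 / 2 : ℝ) = (p : ℝ) ^ 2 := by
        rw [← Real.rpow_add hp0]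
        norm_num
      have e2 : 0 < (p : ℝ) ^ (3 / 2 : ℝ) := by positivity
      rw [eq_div_iff e2.ne', mul_right_comm, e1]
      field_simp
    calc Real.log p ^ 2 * ∑ k ∈ Finset.Icc 2 N, (1 / (p : ℝ)) ^ k ≤
        (16 * (p : ℝ) ^ (1 / 2 : ℝ)) * (4 * (1 / (p : ℝ)) ^ 2) :=
          mul_le_mul h12 h10 (Finset.sum_nonneg fun _ _ => by positivity) (by positivity)
      _ = 4 * 16 * ((p : ℝ) ^ (1 / 2 : ℝ) * (1 / (p : ℝ)) ^ 2) := by ring
      _ = _ := by rw [h13]
  refine (Finset.sum_le_sum h6).trans ?_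
  rw [← Finset.mul_sum]
  have h14 : ∑ p ∈ P, 1 / (p : ℝ) ^ (3 / 2 : ℝ) ≤ ∑' n : ℕ, 1 / (n : ℝ) ^ (3 / 2 : ℝ) :=
    hs.sum_le_tsum _ fun n _ => by positivity
  linarith

/-- the part of the prime powers -/
noncomputable def npw (X t : ℝ) : ℝ := SS X t - (DP (QX X) (rs X) t).re

lemma npw_eq {X : ℝ} (t : ℝ) : npw X t =
    ∑ n ∈ Finset.range (⌊Real.exp X⌋₊ + 1),
      (if n.Prime then 0 else 2 / X * (ArithmeticFunction.vonMangoldt n / √n * (1 - Real.log n / X) ^ 2)) *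
        Real.cos (Real.log n * t) := by
  unfold npw
  rw [DP_re _ (fun p hp => (Finset.mem_filter.1 hp).2.pos)]
  unfold SS QX
  rw [Finset.mul_sum, Finset.sum_filter, ← Finset.sum_sub_distrib]
  refine Finset.sum_congr rfl fun n _ => ?_
  split_ifs with h
  · unfold rs
    rw [ArithmeticFunction.vonMangoldt_apply_prime h]
    ring
  · rw [mul_comm t]
    ring

theorem npw_mean : ∃ C T₀ : ℝ, 0 < C ∧ ∀ T X : ℝ, T₀ ≤ T → 0 < X → Real.exp X ≤ T ^ (1 / 4 : ℝ) →
    ∫ t in (T / 2)..(4 * T), npw X t ^ 2 ≤ C / X ^ 2 * T := by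
  obtain ⟨C, hC, h⟩ := np_sq
  have ev1 : ∀ᶠ T : ℝ in atTop, 80 ≤ T ^ (1 / 2 : ℝ) := (tendsto_rpow_atTop (by norm_num)).eventually_ge_atTop _
  obtain ⟨T0, hT0⟩ := eventually_atTop.mp (ev1.and (eventually_ge_atTop 1))
  refine ⟨16 * C, T0, by positivity, fun T X hT hX0 hXT => ?_⟩
  obtain ⟨f1, f2⟩ := hT0 T hT
  have hTp : 0 < T := by linarith
  set N := ⌊Real.exp X⌋₊ with hN
  have hN1 : 1 ≤ N := by
    rw [hN, Nat.one_le_floor_iff]
    exact Real.one_le_exp hX0.le
  have hNL : (N : ℝ) ≤ Real.exp X := Nat.floor_le (Real.exp_pos X).le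
  have hNX : Real.log N ≤ X := by
    rw [Real.log_le_iff_le_exp (by exact_mod_cast hN1)]
    exact hNL
  set c : ℕ → ℝ := fun n => if n.Prime then 0 else 2 / X * (ArithmeticFunction.vonMangoldt n / √n * (1 - Real.log n / X) ^ 2)
    with hc
  have hc0 : c 0 = 0 := by
    rw [hc]
    simp
  have hmv := Pool.Agent.Helper78.SG.mv_cplx hN1 c hc0 (show T / 2 ≤ 4 * T by linarith)
  have hS : ∑ n ∈ Finset.range (N + 1), c n ^ 2 ≤ 4 / X ^ 2 * C := by
    have h1 : ∑ n ∈ Finset.range (N + 1), c n ^ 2 ≤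
        ∑ n ∈ (Finset.range (N + 1)).filter (fun n => ¬ n.Prime), 4 / X ^ 2 * (ArithmeticFunction.vonMangoldt n / √n) ^ 2 := by
      rw [Finset.sum_filter]
      refine Finset.sum_le_sum fun n hn => ?_
      rw [hc]
      dsimp only
      by_cases hp : n.Prime
      · rw [if_pos hp, if_neg (by simpa using hp)]
        norm_num
      · rw [if_neg hp, if_pos hp]
        rcases Nat.eq_zero_or_pos n with h0 | h0
        · subst h0
          simp
        · have hn0 : (0:ℝ) < n := by exact_mod_cast h0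
          have g1 : 0 ≤ Real.log n := Real.log_nonneg (by exact_mod_cast h0)
          have g2 : Real.log n ≤ X := by
            refine le_trans ?_ hNX
            exact Real.log_le_log hn0 (by exact_mod_cast Nat.lt_succ_iff.1 (Finset.mem_range.1 hn))
          have g3 : Real.log n / X ≤ 1 := (div_le_one hX0).2 g2
          have g4 : 0 ≤ Real.log n / X := by positivity
          have g5 : (1 - Real.log n / X) ^ 2 ≤ 1 := by nlinarith
          have g6 : ((1 - Real.log n / X) ^ 2) ^ 2 ≤ 1 := pow_le_one₀ (sq_nonneg _) g5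
          calc (2 / X * (ArithmeticFunction.vonMangoldt n / √n * (1 - Real.log n / X) ^ 2)) ^ 2 =
              4 / X ^ 2 * (ArithmeticFunction.vonMangoldt n / √n) ^ 2 * ((1 - Real.log n / X) ^ 2) ^ 2 := by ring
            _ ≤ 4 / X ^ 2 * (ArithmeticFunction.vonMangoldt n / √n) ^ 2 * 1 :=
                mul_le_mul_of_nonneg_left g6 (by positivity)
            _ = _ := mul_one _
    refine h1.trans ?_
    rw [← Finset.mul_sum]
    exact mul_le_mul_of_nonneg_left (h N) (by positivity)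
  have hS0 : 0 ≤ ∑ n ∈ Finset.range (N + 1), c n ^ 2 := Finset.sum_nonneg fun n _ => sq_nonneg _
  have hN4 : (N : ℝ) ≤ T ^ (1 / 4 : ℝ) := hNL.trans hXT
  have hlogN : 1 + Real.log N ≤ N := by
    have h1 : (0:ℝ) < N := by exact_mod_cast hN1
    linarith [Real.log_le_sub_one_of_pos h1]
  have hlen : 4 * T - T / 2 + 20 * N * (1 + Real.log N) ≤ 4 * T := by
    have hN0 : (0:ℝ) ≤ N := Nat.cast_nonneg _
    have h1 : 20 * N * (1 + Real.log N) ≤ 20 * (T ^ (1 / 4 : ℝ) * T ^ (1 / 4 : ℝ)) := by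
      calc 20 * N * (1 + Real.log N) ≤ 20 * N * N := by gcongr
        _ = 20 * (N * N) := by ring
        _ ≤ _ := by gcongr
    have h2 : T ^ (1 / 4 : ℝ) * T ^ (1 / 4 : ℝ) = T ^ (1 / 2 : ℝ) := by
      rw [← Real.rpow_add hTp]
      norm_num
    have h3 : T ^ (1 / 2 : ℝ) * T ^ (1 / 2 : ℝ) = T := by
      rw [← Real.rpow_add hTp]
      norm_num
    rw [h2] at h1
    have h4 : 80 * T ^ (1 / 2 : ℝ) ≤ T := by
      calc 80 * T ^ (1 / 2 : ℝ) ≤ T ^ (1 / 2 : ℝ) * T ^ (1 / 2 : ℝ) := by gcongr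
        _ = T := h3
    have h5 : 0 ≤ T ^ (1 / 2 : ℝ) := by positivity
    linarith
  have hcc : Continuous fun t => ∑ n ∈ Finset.range (N + 1), c n * Real.cos (Real.log n * t) :=
    continuous_finsetSum _ fun n _ => by fun_prop
  have hcs : Continuous fun t => ∑ n ∈ Finset.range (N + 1), c n * Real.sin (Real.log n * t) :=
    continuous_finsetSum _ fun n _ => by fun_prop
  have hle : ∫ t in (T / 2)..(4 * T), npw X t ^ 2 ≤
      ∫ t in (T / 2)..(4 * T), ((∑ n ∈ Finset.range (N + 1), c n * Real.cos (Real.log n * t)) ^ 2 +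
        (∑ n ∈ Finset.range (N + 1), c n * Real.sin (Real.log n * t)) ^ 2) := by
    have hnp : ∀ t, npw X t = ∑ n ∈ Finset.range (N + 1), c n * Real.cos (Real.log n * t) := fun t => npw_eq t
    refine intervalIntegral.integral_mono_on (by linarith) ?_ ?_ fun t _ => ?_
    · simp only [hnp]
      exact (hcc.pow 2).intervalIntegrable _ _
    · exact ((hcc.pow 2).add (hcs.pow 2)).intervalIntegrable _ _
    · rw [hnp]
      exact le_add_of_nonneg_right (sq_nonneg _)
  calc _ ≤ _ := hle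
    _ ≤ (4 * T - T / 2 + 20 * N * (1 + Real.log N)) * ∑ n ∈ Finset.range (N + 1), c n ^ 2 := hmv
    _ ≤ 4 * T * (4 / X ^ 2 * C) := mul_le_mul hlen hS hS0 (by positivity)
    _ = 16 * C / X ^ 2 * T := by ring

lemma npw_cont (X : ℝ) : Continuous (npw X) := by
  have : npw X = fun t => ∑ n ∈ Finset.range (⌊Real.exp X⌋₊ + 1),
      (if n.Prime then 0 else 2 / X * (ArithmeticFunction.vonMangoldt n / √n * (1 - Real.log n / X) ^ 2)) *
        Real.cos (Real.log n * t) := funext fun t => npw_eq t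
  rw [this]
  exact continuous_finsetSum _ fun n _ => by fun_prop

/-- The prime powers: Chebyshev. -/
theorem npw_tail : ∃ C T₀ : ℝ, 0 < C ∧ ∀ T X v : ℝ, T₀ ≤ T → 0 < X → Real.exp X ≤ T ^ (1 / 4 : ℝ) → 0 < v →
    volume {t : ℝ | t ∈ JJ T ∧ v ≤ |npw X t|} ≤ ENNReal.ofReal (C / (X * v) ^ 2 * T) := by
  obtain ⟨C, T0, hC, h⟩ := npw_mean
  refine ⟨C, max T0 1, hC, fun T X v hT hX hXT hv => ?_⟩
  have hT1 : 1 ≤ T := (le_max_right _ _).trans hT
  have h1 := h T X ((le_max_left _ _).trans hT) hX hXT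
  have hc : Continuous fun t => npw X t ^ 2 := (npw_cont X).pow 2
  have hi : IntegrableOn (fun t => npw X t ^ 2) (JJ T) := hc.continuousOn.integrableOn_Icc
  have h2 := mul_meas_ge_le_integral_of_nonneg (μ := volume.restrict (JJ T))
    (Eventually.of_forall fun t => (sq_nonneg (npw X t))) hi (v ^ 2)
  have hJ : ∫ t in JJ T, npw X t ^ 2 = ∫ t in (T / 2)..(4 * T), npw X t ^ 2 := by
    rw [intervalIntegral.integral_of_le (by linarith), JJ, integral_Icc_eq_integral_Ioc]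
  rw [hJ] at h2
  have hsub : {t : ℝ | t ∈ JJ T ∧ v ≤ |npw X t|} ⊆ JJ T ∩ {t | v ^ 2 ≤ npw X t ^ 2} := by
    rintro t ⟨ht, hv'⟩
    refine ⟨ht, ?_⟩
    rw [mem_setOf_eq, ← sq_abs (npw X t)]
    exact pow_le_pow_left₀ hv.le hv' 2
  have hms : MeasurableSet {t | v ^ 2 ≤ npw X t ^ 2} := measurableSet_le measurable_const hc.measurable
  have h3 : (volume.restrict (JJ T)).real {t | v ^ 2 ≤ npw X t ^ 2} ≤ C / (X * v) ^ 2 * T := by
    have hv2 : 0 < v ^ 2 := by positivity
    have h4 : v ^ 2 * (volume.restrict (JJ T)).real {t | v ^ 2 ≤ npw X t ^ 2} ≤ C / X ^ 2 * T := h2.trans h1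
    rw [← le_div_iff₀' hv2] at h4
    refine h4.trans (le_of_eq ?_)
    field_simp
  have hfin : (volume.restrict (JJ T)) {t | v ^ 2 ≤ npw X t ^ 2} ≠ ⊤ := by
    have : IsFiniteMeasure (volume.restrict (JJ T)) := by
      rw [JJ]
      infer_instance
    exact measure_ne_top _ _
  calc volume {t : ℝ | t ∈ JJ T ∧ v ≤ |npw X t|} ≤ volume (JJ T ∩ {t | v ^ 2 ≤ npw X t ^ 2}) := measure_mono hsub
    _ = (volume.restrict (JJ T)) {t | v ^ 2 ≤ npw X t ^ 2} := by
        rw [Measure.restrict_apply hms, inter_comm]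
    _ = ENNReal.ofReal ((volume.restrict (JJ T)).real {t | v ^ 2 ≤ npw X t ^ 2}) := by
        rw [Measure.real, ENNReal.ofReal_toReal hfin]
    _ ≤ _ := ENNReal.ofReal_le_ofReal h3

end Pool.Agent.Helper82.NR
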