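import Pool.Agent.Helper82.NR.Var
import Pool.Agent.Helper82.NR.Np

/-!
# NR, blocks B3 and B4: the sum of the prime sums over the scales `log T / 2 ^ (a + j)`, `j < J`
-/

set_option autoImplicit false
open MeasureTheory Set Filter Topology
open Pool.Agent.Helper57.TX
open Pool.Agent.Helper54.LG (SS)

namespace Pool.Agent.Helper82.NR

open Pool.Agent.Helper64.TX (mem_QX)
open Pool.Agent.Helper49.TX (mom_tail)

/-- The scales. -/
noncomputable def Xs (T : ℝ) (a j : ℕ) : ℝ := Real.log T / 2 ^ (a + j)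

lemma DP_rc {X Y : ℝ} (hXY : X ≤ Y) (t : ℝ) : DP (QX X) (rs X) t = DP (QX Y) (rc X) t := by
  unfold DP
  have hsub : QX X ⊆ QX Y := fun p hp => by
    rw [mem_QX] at hp ⊢
    exact ⟨hp.1, hp.2.trans hXY⟩
  rw [← Finset.sum_subset hsub]
  · refine Finset.sum_congr rfl fun p hp => ?_
    unfold rc
    rw [if_pos hp]
  · intro p _ hp
    unfold rc
    rw [if_neg hp]
    simp

lemma DP_sum {ι : Type*} (s : Finset ι) (Q : Finset ℕ) (r : ι → ℕ → ℝ) (t : ℝ) :
    ∑ j ∈ s, DP Q (r j) t = DP Q (fun p => ∑ j ∈ s, r j p) t := by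
  unfold DP
  rw [Finset.sum_comm]
  refine Finset.sum_congr rfl fun p _ => ?_
  rw [← Finset.sum_mul]
  push_cast
  rfl

/-- B4: Gaussian tail of the sum over the scales. -/
theorem ps_tail : ∃ C c T₀ : ℝ, 0 < C ∧ 0 < c ∧ ∀ (T V : ℝ) (a J : ℕ), T₀ ≤ T → 1 ≤ J → (J : ℝ) ≤ 2 ^ a →
    1 / 2 ≤ Real.log T / 2 ^ (a + J) → 0 < V → V ≤ 1 →
    volume {t : ℝ | t ∈ JJ T ∧ V * J ≤ |∑ j ∈ Finset.range J, (DP (QX (Xs T a j)) (rs (Xs T a j)) t).re|} ≤
      ENNReal.ofReal (C * Real.exp (-(c * V ^ 2 * J)) * T) := by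
  obtain ⟨T0, hm⟩ := mom_tail
  obtain ⟨C, hC, hv⟩ := var_sum
  obtain ⟨c, hc⟩ : ∃ c : ℝ, c = min (1 / 4) (1 / (Real.exp 1 * C)) := ⟨_, rfl⟩
  have hc0 : 0 < c := by
    rw [hc]
    exact lt_min (by norm_num) (by positivity)
  have hc4 : c ≤ 1 / 4 := hc ▸ min_le_left _ _
  have hcC : c * (Real.exp 1 * C) ≤ 1 := by
    have h1 : c ≤ 1 / (Real.exp 1 * C) := hc ▸ min_le_right _ _
    rwa [le_div_iff₀ (by positivity)] at h1
  refine ⟨4 * Real.exp 1, c, max T0 1, by positivity, hc0, fun T V a J hT hJ hJa hX hV hV1 => ?_⟩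
  have hT0 : T0 ≤ T := (le_max_left _ _).trans hT
  have hT1 : 1 ≤ T := (le_max_right _ _).trans hT
  have hTp : 0 < T := by linarith
  have hJ0 : (0:ℝ) < J := by exact_mod_cast hJ
  have hlog : 0 < Real.log T := by
    by_contra hneg
    rw [not_lt] at hneg
    have : Real.log T / 2 ^ (a + J) ≤ 0 := div_nonpos_of_nonpos_of_nonneg hneg (by positivity)
    linarith
  have hX0 : 0 < Xs T a 0 := by
    unfold Xs
    positivity
  have hXle : ∀ j, Xs T a j ≤ Xs T a 0 := by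
    intro j
    unfold Xs
    exact div_le_div_of_nonneg_left hlog.le (by positivity) (pow_le_pow_right₀ (by norm_num) (by omega))
  obtain ⟨k, hk⟩ : ∃ k : ℕ, k = ⌊c * V ^ 2 * J⌋₊ := ⟨_, rfl⟩
  have hk1 : (k : ℝ) ≤ c * V ^ 2 * J := by
    rw [hk]
    exact Nat.floor_le (by positivity)
  have hk2 : c * V ^ 2 * J < k + 1 := by
    rw [hk]
    exact Nat.lt_floor_add_one _
  have hV2 : V ^ 2 ≤ 1 := pow_le_one₀ hV.le hV1
  have hkJ : (k : ℝ) ≤ 1 / 4 * J := by
    refine hk1.trans ?_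
    have : c * V ^ 2 ≤ 1 / 4 * 1 := mul_le_mul hc4 hV2 (by positivity) (by norm_num)
    nlinarith
  have hL : Real.exp (Xs T a 0) ^ k ≤ T ^ (1 / 4 : ℝ) := by
    rw [← Real.exp_nat_mul, Real.rpow_def_of_pos hTp, Real.exp_le_exp]
    have h1 : (k : ℝ) ≤ 1 / 4 * 2 ^ a := hkJ.trans (by linarith)
    have h2 : (k : ℝ) * Xs T a 0 = k * (Real.log T / 2 ^ a) := by
      unfold Xs
      rw [add_zero]
    rw [h2]
    calc (k : ℝ) * (Real.log T / 2 ^ a) ≤ 1 / 4 * 2 ^ a * (Real.log T / 2 ^ a) :=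
          mul_le_mul_of_nonneg_right h1 (by positivity)
      _ = Real.log T * (1 / 4) := by field_simp
  have h1 := hm T (Real.exp (Xs T a 0)) hT0 (Real.one_le_exp hX0.le) (QX (Xs T a 0))
    (fun p => ∑ j ∈ Finset.range J, rc (Xs T a j) p) k (fun p hp => by
      obtain ⟨g1, g2⟩ := mem_QX.1 hp
      refine ⟨g1, ?_⟩
      have hp0 : (0:ℝ) < p := by exact_mod_cast g1.pos
      rw [← Real.log_le_iff_le_exp hp0]
      exact g2) hL (V * J) (by positivity)
  have hvar := hv (Real.log T) a J hX (QX (Xs T a 0))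
  have hvar' : ∑ p ∈ QX (Xs T a 0), (∑ j ∈ Finset.range J, rc (Xs T a j) p) ^ 2 / (p : ℝ) ≤ C * J := hvar
  have hsub : {t : ℝ | t ∈ JJ T ∧ V * J ≤ |∑ j ∈ Finset.range J, (DP (QX (Xs T a j)) (rs (Xs T a j)) t).re|} ⊆
      {t : ℝ | t ∈ JJ T ∧ V * J ≤ ‖DP (QX (Xs T a 0)) (fun p => ∑ j ∈ Finset.range J, rc (Xs T a j) p) t‖} := by
    rintro t ⟨ht, hle⟩
    refine ⟨ht, hle.trans ?_⟩
    rw [← Complex.re_sum, Finset.sum_congr rfl fun j _ => DP_rc (hXle j) t, DP_sum]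
    exact Complex.abs_re_le_norm _
  refine (measure_mono hsub).trans (h1.trans (ENNReal.ofReal_le_ofReal ?_))
  refine mul_le_mul_of_nonneg_right ?_ hTp.le
  have hS0 : 0 ≤ ∑ p ∈ QX (Xs T a 0), (∑ j ∈ Finset.range J, rc (Xs T a j) p) ^ 2 / (p : ℝ) :=
    Finset.sum_nonneg fun p _ => by positivity
  have hq : (∑ p ∈ QX (Xs T a 0), (∑ j ∈ Finset.range J, rc (Xs T a j) p) ^ 2 / (p : ℝ)) / (V * J) ^ 2 ≤
      C / (V ^ 2 * J) := by
    rw [div_le_div_iff₀ (by positivity) (by positivity)]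
    calc _ ≤ C * J * (V ^ 2 * J) := mul_le_mul_of_nonneg_right hvar' (by positivity)
      _ = C * (V * J) ^ 2 := by ring
  have hfac : (k.factorial : ℝ) ≤ (k : ℝ) ^ k := by exact_mod_cast Nat.factorial_le_pow k
  have hkC : (k : ℝ) * (C / (V ^ 2 * J)) ≤ (Real.exp 1)⁻¹ := by
    rw [← mul_div_assoc, div_le_iff₀ (by positivity), inv_mul_eq_div, le_div_iff₀ (Real.exp_pos 1)]
    calc (k : ℝ) * C * Real.exp 1 ≤ c * V ^ 2 * J * C * Real.exp 1 := by gcongr
      _ = c * (Real.exp 1 * C) * (V ^ 2 * J) := by ring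
      _ ≤ 1 * (V ^ 2 * J) := mul_le_mul_of_nonneg_right hcC (by positivity)
      _ = V ^ 2 * J := one_mul _
  calc 4 * k.factorial * ((∑ p ∈ QX (Xs T a 0), (∑ j ∈ Finset.range J, rc (Xs T a j) p) ^ 2 / (p : ℝ)) / (V * J) ^ 2) ^ k ≤
      4 * (k : ℝ) ^ k * (C / (V ^ 2 * J)) ^ k := by
        refine mul_le_mul (by linarith) (pow_le_pow_left₀ (by positivity) hq k) (by positivity) (by positivity)
    _ = 4 * ((k : ℝ) * (C / (V ^ 2 * J))) ^ k := by rw [mul_pow]; ring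
    _ ≤ 4 * (Real.exp 1)⁻¹ ^ k := by
        refine mul_le_mul_of_nonneg_left (pow_le_pow_left₀ (by positivity) hkC k) (by norm_num)
    _ = 4 * Real.exp (-k) := by
        rw [← Real.exp_neg, ← Real.exp_nat_mul]
        congr 2
        ring
    _ ≤ 4 * Real.exp (1 + -(c * V ^ 2 * J)) := by
        refine mul_le_mul_of_nonneg_left (Real.exp_le_exp.2 (by linarith)) (by norm_num)
    _ = 4 * Real.exp 1 * Real.exp (-(c * V ^ 2 * J)) := by
        rw [Real.exp_add]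
        ring

/-- B3 + B4: the sum over the scales of the prime sums `SS`. -/
theorem ss_scales : ∃ C c T₀ : ℝ, 0 < C ∧ 0 < c ∧ ∀ (T V : ℝ) (a J : ℕ), T₀ ≤ T → 1 ≤ J → (J : ℝ) ≤ 2 ^ a →
    2 ≤ a → 1 / 2 ≤ Real.log T / 2 ^ (a + J) → 0 < V → V ≤ 1 →
    volume {t : ℝ | t ∈ JJ T ∧ V * J ≤ |∑ j ∈ Finset.range J, SS (Xs T a j) t|} ≤
      ENNReal.ofReal ((C * Real.exp (-(c * V ^ 2 * J)) + C * (2 ^ (a + J) / (Real.log T * V)) ^ 2) * T) := by
  obtain ⟨C, c, T0, hC, hc, h⟩ := ps_tail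
  obtain ⟨C', T0', hC', h'⟩ := npw_tail
  refine ⟨C + 4 * C', c / 4, max (max T0 T0') 1, by positivity, by positivity,
    fun T V a J hT hJ hJa ha hX hV hV1 => ?_⟩
  have hTa : T0 ≤ T := (le_max_left _ _).trans ((le_max_left _ _).trans hT)
  have hTb : T0' ≤ T := (le_max_right _ _).trans ((le_max_left _ _).trans hT)
  have hT1 : 1 ≤ T := (le_max_right _ _).trans hT
  have hTp : 0 < T := by linarith
  have hJ0 : (0:ℝ) < J := by exact_mod_cast hJ
  have hlog : 0 < Real.log T := by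
    by_contra hneg
    rw [not_lt] at hneg
    have : Real.log T / 2 ^ (a + J) ≤ 0 := div_nonpos_of_nonpos_of_nonneg hneg (by positivity)
    linarith
  have hXp : ∀ j, 0 < Xs T a j := by
    intro j
    unfold Xs
    positivity
  have h1 := h T (V / 2) a J hTa hJ hJa hX (by positivity) (by linarith)
  have h2 : ∀ j, volume {t : ℝ | t ∈ JJ T ∧ V / 2 ≤ |npw (Xs T a j) t|} ≤
      ENNReal.ofReal (C' / (Xs T a j * (V / 2)) ^ 2 * T) := by
    intro j
    refine h' T (Xs T a j) (V / 2) hTb (hXp j) ?_ (by positivity)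
    rw [Real.rpow_def_of_pos hTp, Real.exp_le_exp]
    unfold Xs
    rw [div_le_iff₀ (by positivity)]
    have : (4:ℝ) ≤ 2 ^ (a + j) := by
      calc (4:ℝ) = 2 ^ 2 := by norm_num
        _ ≤ 2 ^ (a + j) := pow_le_pow_right₀ (by norm_num) (by omega)
    nlinarith
  have hsub : {t : ℝ | t ∈ JJ T ∧ V * J ≤ |∑ j ∈ Finset.range J, SS (Xs T a j) t|} ⊆
      {t : ℝ | t ∈ JJ T ∧ V / 2 * J ≤ |∑ j ∈ Finset.range J, (DP (QX (Xs T a j)) (rs (Xs T a j)) t).re|} ∪
        ⋃ j ∈ Finset.range J, {t : ℝ | t ∈ JJ T ∧ V / 2 ≤ |npw (Xs T a j) t|} := by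
    rintro t ⟨ht, hle⟩
    by_cases hA : V / 2 * J ≤ |∑ j ∈ Finset.range J, (DP (QX (Xs T a j)) (rs (Xs T a j)) t).re|
    · exact Or.inl ⟨ht, hA⟩
    · right
      by_contra hB
      have hB' : ∀ j ∈ Finset.range J, |npw (Xs T a j) t| ≤ V / 2 := by
        intro j hj
        by_contra hgt
        rw [not_le] at hgt
        exact hB (mem_biUnion hj ⟨ht, hgt.le⟩)
      rw [not_le] at hA
      have e1 : ∑ j ∈ Finset.range J, SS (Xs T a j) t =
          ∑ j ∈ Finset.range J, (DP (QX (Xs T a j)) (rs (Xs T a j)) t).re + ∑ j ∈ Finset.range J, npw (Xs T a j) t := by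
        rw [← Finset.sum_add_distrib]
        refine Finset.sum_congr rfl fun j _ => ?_
        unfold npw
        ring
      have e2 : |∑ j ∈ Finset.range J, npw (Xs T a j) t| ≤ V / 2 * J := by
        refine (Finset.abs_sum_le_sum_abs _ _).trans ((Finset.sum_le_sum hB').trans (le_of_eq ?_))
        rw [Finset.sum_const, Finset.card_range, nsmul_eq_mul]
        ring
      have e3 : |∑ j ∈ Finset.range J, SS (Xs T a j) t| < V * J := by
        rw [e1]
        refine (abs_add_le _ _).trans_lt ?_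
        linarith
      linarith
  refine (measure_mono hsub).trans ((measure_union_le _ _).trans ?_)
  refine (add_le_add h1 ((measure_biUnion_finset_le _ _).trans (Finset.sum_le_sum fun j _ => h2 j))).trans ?_
  rw [← ENNReal.ofReal_sum_of_nonneg (fun j _ => by have := hXp j; positivity), ← ENNReal.ofReal_add (by positivity)
    (Finset.sum_nonneg fun j _ => by have := hXp j; positivity)]
  refine ENNReal.ofReal_le_ofReal ?_
  rw [← Finset.sum_mul, ← add_mul]
  refine mul_le_mul_of_nonneg_right (add_le_add ?_ ?_) hTp.le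
  · have : c * (V / 2) ^ 2 * J = c / 4 * V ^ 2 * J := by ring
    rw [this]
    exact mul_le_mul_of_nonneg_right (by linarith) (Real.exp_pos _).le
  · have e4 : ∀ j, C' / (Xs T a j * (V / 2)) ^ 2 = 4 * C' * (2 ^ a / (Real.log T * V)) ^ 2 * 4 ^ j := by
      intro j
      unfold Xs
      rw [pow_add]
      have : (4:ℝ) ^ j = 2 ^ j * 2 ^ j := by
        rw [← mul_pow]
        norm_num
      rw [this]
      field_simp
      norm_num
    rw [Finset.sum_congr rfl fun j _ => e4 j, ← Finset.mul_sum]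
    have e5 : ∑ j ∈ Finset.range J, (4:ℝ) ^ j ≤ 4 ^ J := by
      rw [geom_sum_eq (by norm_num)]
      have : (0:ℝ) ≤ 4 ^ J := by positivity
      rw [div_le_iff₀ (by norm_num)]
      linarith
    calc 4 * C' * (2 ^ a / (Real.log T * V)) ^ 2 * ∑ j ∈ Finset.range J, (4:ℝ) ^ j ≤
        4 * C' * (2 ^ a / (Real.log T * V)) ^ 2 * 4 ^ J := mul_le_mul_of_nonneg_left e5 (by positivity)
      _ = 4 * C' * (2 ^ (a + J) / (Real.log T * V)) ^ 2 := by
          rw [pow_add]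
          have : (4:ℝ) ^ J = 2 ^ J * 2 ^ J := by
            rw [← mul_pow]
            norm_num
          rw [this]
          ring
      _ ≤ (C + 4 * C') * (2 ^ (a + J) / (Real.log T * V)) ^ 2 :=
          mul_le_mul_of_nonneg_right (by linarith) (by positivity)

end Pool.Agent.Helper82.NR
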