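import Pool.Agent.Helper57.TX.Defs
import Pool.Agent.Helper64.TX.Var
import Pool.Agent.Helper49.TX.Mom

/-!
# NR: the mean over dyadic scales of the prime sums has variance `O(1/J)` and a Gaussian tail
-/

set_option autoImplicit false
open MeasureTheory Set Filter Topology
open Pool.Agent.Helper57.TX

namespace Pool.Agent.Helper82.NR

open Pool.Agent.Helper64.TX (mem_QX)
open Pool.Agent.Helper7.UV (mert_window)

/-- coefficient of the prime sum of scale `X`, cut off -/
noncomputable def rc (X : ℝ) (p : ℕ) : ℝ := if p ∈ QX X then rs X p else 0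

lemma rs_bd {X : ℝ} (hX : 0 < X) {p : ℕ} (hp : p ∈ QX X) : 0 ≤ rs X p ∧ rs X p ≤ 2 / X * Real.log p := by
  obtain ⟨hp1, hp2⟩ := mem_QX.1 hp
  have hl : 0 ≤ Real.log p := Real.log_nonneg (by exact_mod_cast hp1.one_le)
  have hq0 : 0 ≤ 1 - Real.log p / X := by
    rw [sub_nonneg, div_le_one hX]
    exact hp2
  have hq1 : 1 - Real.log p / X ≤ 1 := by
    have : 0 ≤ Real.log p / X := by positivity
    linarith
  unfold rs
  have h3 : (1 - Real.log p / X) ^ 2 ≤ 1 := pow_le_one₀ hq0 hq1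
  exact ⟨by positivity, mul_le_of_le_one_right (by positivity) h3⟩

lemma rc_nonneg {X : ℝ} (hX : 0 < X) (p : ℕ) : 0 ≤ rc X p := by
  unfold rc
  split_ifs with h
  · exact (rs_bd hX h).1
  · exact le_rfl

/-- covariance of two scales -/
theorem cov : ∃ C : ℝ, 0 < C ∧ ∀ X Y : ℝ, 1 / 2 ≤ X → X ≤ Y → ∀ Q : Finset ℕ,
    ∑ p ∈ Q, rc X p * rc Y p / p ≤ C * (X / Y) := by
  obtain ⟨E, hE, hm⟩ := mert_window
  refine ⟨4 + 8 * E, by positivity, fun X Y hX hXY Q => ?_⟩
  have hX0 : 0 < X := by linarith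
  have hY0 : 0 < Y := by linarith
  have h0 := hm 0 X le_rfl hX0.le (QX X) (fun p => by
    rw [mem_QX]
    constructor
    · rintro ⟨h1, h2⟩
      exact ⟨h1, Real.log_pos (by exact_mod_cast h1.one_lt), h2⟩
    · rintro ⟨h1, _, h2⟩
      exact ⟨h1, h2⟩)
  rw [sub_zero] at h0
  have h1 : ∑ p ∈ Q, rc X p * rc Y p / p ≤ ∑ p ∈ QX X, 4 / Y * (Real.log p / p) := by
    have h2 : ∑ p ∈ Q, rc X p * rc Y p / p = ∑ p ∈ Q.filter (fun p => p ∈ QX X), rc X p * rc Y p / p := by
      rw [Finset.sum_filter]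
      refine Finset.sum_congr rfl fun p _ => ?_
      split_ifs with h
      · rfl
      · unfold rc
        rw [if_neg h, zero_mul, zero_div]
    rw [h2]
    refine (Finset.sum_le_sum (g := fun p : ℕ => 4 / Y * (Real.log p / p)) fun p hp => ?_).trans ?_
    · rw [Finset.mem_filter] at hp
      have hpX := hp.2
      have hpY : p ∈ QX Y := by
        rw [mem_QX] at hpX ⊢
        exact ⟨hpX.1, hpX.2.trans hXY⟩
      obtain ⟨hp1, hp2⟩ := mem_QX.1 hpX
      have hp0 : (0 : ℝ) < p := by exact_mod_cast hp1.pos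
      have hl : 0 ≤ Real.log p := Real.log_nonneg (by exact_mod_cast hp1.one_le)
      obtain ⟨a1, a2⟩ := rs_bd hX0 hpX
      obtain ⟨b1, b2⟩ := rs_bd hY0 hpY
      unfold rc
      rw [if_pos hpX, if_pos hpY]
      have h3 : rs X p * rs Y p ≤ (2 / X * Real.log p) * (2 / Y * Real.log p) :=
        mul_le_mul a2 b2 b1 (by positivity)
      have h4 : (2 / X * Real.log p) * (2 / Y * Real.log p) = 4 / Y * Real.log p * (Real.log p / X) := by
        field_simp
        ring
      have h5 : 4 / Y * Real.log p * (Real.log p / X) ≤ 4 / Y * Real.log p * 1 :=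
        mul_le_mul_of_nonneg_left ((div_le_one hX0).2 hp2) (by positivity)
      calc rs X p * rs Y p / p ≤ (4 / Y * Real.log p) / p :=
            div_le_div_of_nonneg_right (by linarith) hp0.le
        _ = 4 / Y * (Real.log p / p) := by ring
    · refine Finset.sum_le_sum_of_subset_of_nonneg (fun p hp => (Finset.mem_filter.1 hp).2) fun p hp _ => ?_
      obtain ⟨hp1, _⟩ := mem_QX.1 hp
      have hl : 0 ≤ Real.log p := Real.log_nonneg (by exact_mod_cast hp1.one_le)
      positivity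
  rw [← Finset.mul_sum] at h1
  have h3 : ∑ p ∈ QX X, Real.log p / p ≤ X + E := by
    rw [abs_le] at h0
    linarith [h0.2]
  have h4 : 4 / Y * ∑ p ∈ QX X, Real.log p / p ≤ 4 / Y * (X + E) :=
    mul_le_mul_of_nonneg_left h3 (by positivity)
  have h6 : X + E ≤ (1 + 2 * E) * X := by nlinarith
  have h7 : 4 / Y * (X + E) ≤ 4 / Y * ((1 + 2 * E) * X) := mul_le_mul_of_nonneg_left h6 (by positivity)
  calc _ ≤ 4 / Y * ((1 + 2 * E) * X) := by linarith
    _ = (4 + 8 * E) * (X / Y) := by ring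

lemma geom_two (J : ℕ) (i : ℕ) (hi : i < J) :
    ∑ j ∈ Finset.range J, (2 : ℝ)⁻¹ ^ ((i : ℤ) - j).natAbs ≤ 4 := by
  have h1 : ∀ n : ℕ, ∑ k ∈ Finset.range n, (2 : ℝ)⁻¹ ^ k ≤ 2 := by
    intro n
    have := geom_sum_eq (x := (2:ℝ)⁻¹) (by norm_num) n
    rw [this]
    have : (0:ℝ) ≤ 2⁻¹ ^ n := by positivity
    rw [div_le_iff_of_neg (by norm_num)]
    linarith
  have h2 : Finset.range J ⊆ Finset.range (i + 1) ∪ (Finset.range J).filter (fun j => i < j) := by
    intro j hj
    rw [Finset.mem_union, Finset.mem_range, Finset.mem_filter]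
    by_cases h : i < j
    · exact Or.inr ⟨hj, h⟩
    · exact Or.inl (by omega)
  have h3 : ∑ j ∈ Finset.range (i + 1), (2 : ℝ)⁻¹ ^ ((i : ℤ) - j).natAbs ≤ 2 := by
    refine le_trans (le_of_eq ?_) (h1 (i + 1))
    rw [← Finset.sum_range_reflect (fun k => (2:ℝ)⁻¹ ^ k)]
    refine Finset.sum_congr rfl fun j hj => ?_
    have : j < i + 1 := Finset.mem_range.1 hj
    congr 1
    omega
  have h4 : ∑ j ∈ (Finset.range J).filter (fun j => i < j), (2 : ℝ)⁻¹ ^ ((i : ℤ) - j).natAbs ≤ 2 := by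
    have h5 : ∑ j ∈ (Finset.range J).filter (fun j => i < j), (2 : ℝ)⁻¹ ^ ((i : ℤ) - j).natAbs =
        ∑ k ∈ ((Finset.range J).filter (fun j => i < j)).image (fun j => j - i), (2 : ℝ)⁻¹ ^ k := by
      rw [Finset.sum_image]
      · refine Finset.sum_congr rfl fun j hj => ?_
        have := (Finset.mem_filter.1 hj).2
        congr 1
        omega
      · intro x hx y hy hxy
        have h6 := (Finset.mem_filter.1 hx).2
        have h7 := (Finset.mem_filter.1 hy).2
        simp only at hxy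
        omega
    rw [h5]
    refine le_trans (Finset.sum_le_sum_of_subset_of_nonneg ?_ fun _ _ _ => by positivity) (h1 J)
    intro k hk
    obtain ⟨j, hj, rfl⟩ := Finset.mem_image.1 hk
    have := Finset.mem_range.1 (Finset.mem_filter.1 hj).1
    rw [Finset.mem_range]
    omega
  calc _ ≤ ∑ j ∈ Finset.range (i + 1) ∪ (Finset.range J).filter (fun j => i < j), (2 : ℝ)⁻¹ ^ ((i : ℤ) - j).natAbs :=
        Finset.sum_le_sum_of_subset_of_nonneg h2 fun _ _ _ => by positivity
    _ ≤ ∑ j ∈ Finset.range (i + 1), (2 : ℝ)⁻¹ ^ ((i : ℤ) - j).natAbs +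
        ∑ j ∈ (Finset.range J).filter (fun j => i < j), (2 : ℝ)⁻¹ ^ ((i : ℤ) - j).natAbs := by
        have h8 := Finset.sum_union_inter (s₁ := Finset.range (i + 1)) (s₂ := (Finset.range J).filter (fun j => i < j))
          (f := fun j : ℕ => (2 : ℝ)⁻¹ ^ ((i : ℤ) - j).natAbs)
        have h9 : 0 ≤ ∑ j ∈ Finset.range (i + 1) ∩ (Finset.range J).filter (fun j => i < j), (2 : ℝ)⁻¹ ^ ((i : ℤ) - j).natAbs :=
          Finset.sum_nonneg fun _ _ => by positivity
        linarith
    _ ≤ 4 := by linarith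

/-- variance of the sum over the scales `K / 2 ^ j`, `a ≤ j < a + J` -/
theorem var_sum : ∃ C : ℝ, 0 < C ∧ ∀ (K : ℝ) (a J : ℕ), 1 / 2 ≤ K / 2 ^ (a + J) → ∀ Q : Finset ℕ,
    ∑ p ∈ Q, (∑ j ∈ Finset.range J, rc (K / 2 ^ (a + j)) p) ^ 2 / p ≤ C * J := by
  obtain ⟨C, hC, h⟩ := cov
  refine ⟨4 * C, by positivity, fun K a J hK Q => ?_⟩
  have hX : ∀ j, j < J → 1 / 2 ≤ K / 2 ^ (a + j) := by
    intro j hj
    refine hK.trans ?_
    have hK0 : 0 ≤ K := by
      by_contra hneg
      rw [not_le] at hneg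
      have : K / 2 ^ (a + J) < 0 := div_neg_of_neg_of_pos hneg (by positivity)
      linarith
    exact div_le_div_of_nonneg_left hK0 (by positivity) (pow_le_pow_right₀ (by norm_num) (by omega))
  have key : ∀ i, i < J → ∀ j, j < J → ∑ p ∈ Q, rc (K / 2 ^ (a + i)) p * rc (K / 2 ^ (a + j)) p / p ≤
      C * (2 : ℝ)⁻¹ ^ ((i : ℤ) - j).natAbs := by
    have main : ∀ i, i < J → ∀ j, j < J → j ≤ i → ∑ p ∈ Q, rc (K / 2 ^ (a + i)) p * rc (K / 2 ^ (a + j)) p / p ≤
        C * (2 : ℝ)⁻¹ ^ ((i : ℤ) - j).natAbs := by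
      intro i hi j hj hji
      have hi0 : 0 < K / 2 ^ (a + i) := by linarith [hX i hi]
      have hj0 : 0 < K / 2 ^ (a + j) := by linarith [hX j hj]
      have hK0 : 0 < K := by
        by_contra hneg
        rw [not_lt] at hneg
        have : K / 2 ^ (a + i) ≤ 0 := div_nonpos_of_nonpos_of_nonneg hneg (by positivity)
        linarith
      have h1 := h (K / 2 ^ (a + i)) (K / 2 ^ (a + j)) (hX i hi)
        (div_le_div_of_nonneg_left hK0.le (by positivity) (pow_le_pow_right₀ (by norm_num) (by omega))) Q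
      refine h1.trans (le_of_eq ?_)
      congr 1
      obtain ⟨d, rfl⟩ := Nat.exists_eq_add_of_le hji
      have h2 : (((j + d : ℕ) : ℤ) - j).natAbs = d := by omega
      rw [h2]
      have : (2:ℝ) ^ (a + (j + d)) = 2 ^ (a + j) * 2 ^ d := by rw [← add_assoc, pow_add]
      rw [this, inv_pow]
      field_simp
    intro i hi j hj
    rcases le_total j i with hji | hij
    · exact main i hi j hj hji
    · have h1 := main j hj i hi hij
      have h2 : ((j : ℤ) - i).natAbs = ((i : ℤ) - j).natAbs := by omega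
      rw [h2] at h1
      refine le_trans (le_of_eq ?_) h1
      exact Finset.sum_congr rfl fun p _ => by ring
  have h1 : ∑ p ∈ Q, (∑ j ∈ Finset.range J, rc (K / 2 ^ (a + j)) p) ^ 2 / p =
      ∑ i ∈ Finset.range J, ∑ j ∈ Finset.range J, ∑ p ∈ Q, rc (K / 2 ^ (a + i)) p * rc (K / 2 ^ (a + j)) p / p := by
    have : ∀ p ∈ Q, (∑ j ∈ Finset.range J, rc (K / 2 ^ (a + j)) p) ^ 2 / (p:ℝ) =
        ∑ i ∈ Finset.range J, ∑ j ∈ Finset.range J, rc (K / 2 ^ (a + i)) p * rc (K / 2 ^ (a + j)) p / p := by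
      intro p _
      rw [sq, Finset.sum_mul_sum, Finset.sum_div]
      exact Finset.sum_congr rfl fun i _ => Finset.sum_div _ _ _
    rw [Finset.sum_congr rfl this, Finset.sum_comm]
    refine Finset.sum_congr rfl fun i _ => ?_
    rw [Finset.sum_comm]
  rw [h1]
  calc _ ≤ ∑ i ∈ Finset.range J, ∑ j ∈ Finset.range J, C * (2 : ℝ)⁻¹ ^ ((i : ℤ) - j).natAbs :=
        Finset.sum_le_sum fun i hi => Finset.sum_le_sum fun j hj =>
          key i (Finset.mem_range.1 hi) j (Finset.mem_range.1 hj)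
    _ ≤ ∑ i ∈ Finset.range J, C * 4 := by
        refine Finset.sum_le_sum fun i hi => ?_
        rw [← Finset.mul_sum]
        exact mul_le_mul_of_nonneg_left (geom_two J i (Finset.mem_range.1 hi)) hC.le
    _ = 4 * C * J := by
        rw [Finset.sum_const, Finset.card_range, nsmul_eq_mul]
        ring

end Pool.Agent.Helper82.NR
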